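import Pool.Agent.P8H15.DS.Stm2
import Pool.Agent.Y771.NF.Cnt

set_option autoImplicit false

/-!
# Project DS: from `S_HID` to the counting statement
-/

namespace Pool.Agent.P8H15.DS

open Filter Topology Complex MeasureTheory Set
open Pool.Agent.Y671.GL
open Pool.Agent.Y671.LD (bad)
open Pool.Agent.Y771.NF.Cnt

/-- the next zero of the `n`-th derivative of `G` -/
def FolG (G : ℂ → ℂ) (n : ℕ) (ε : ℝ) (z : ℂ) : Prop :=
  ∃ g : ℝ, 0 < g ∧ |g * Real.log z.re - Real.pi| ≤ ε ∧ iteratedDeriv n G (z + g) = 0 ∧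
    iteratedDeriv (n + 1) G (z + g) ≠ 0 ∧
    ∀ w : ℂ, iteratedDeriv n G w = 0 → z.re ≤ w.re → w.re ≤ z.re + g → w = z ∨ w = z + g

/-- the exceptional zeros -/
def ExcS (G : ℂ → ℂ) (ε δ : ℝ) (n : ℕ) (T : ℝ) : Set ℂ :=
  {z | z ∈ ZerD G n T ∧ (z.im ≠ 0 ∨ iteratedDeriv (n + 1) G z = 0 ∨
    (Real.exp (δ * (n + 1)) ≤ z.re ∧ ¬ FolG G n ε z))}

lemma num_union {g : ℂ → ℂ} {A B C : Set ℂ} (hB : B.Finite) (hC : C.Finite) (h : A ⊆ B ∪ C) :
    (num g A : ℝ) ≤ num g B + num g C := by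
  classical
  have hA : A.Finite := (hB.union hC).subset h
  rw [num_eq hA, num_eq hB, num_eq hC]
  have h1 : hA.toFinset ⊆ hB.toFinset ∪ hC.toFinset := by
    intro s hs
    rw [Finset.mem_union, Set.Finite.mem_toFinset, Set.Finite.mem_toFinset]
    rw [Set.Finite.mem_toFinset] at hs
    exact h hs
  refine (Finset.sum_le_sum_of_subset_of_nonneg h1 fun _ _ _ => Nat.cast_nonneg _).trans ?_
  rw [← Finset.sum_union_inter]
  have h2 : (0 : ℝ) ≤ ∑ s ∈ hB.toFinset ∩ hC.toFinset, (analyticOrderNatAt g s : ℝ) :=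
    Finset.sum_nonneg fun _ _ => Nat.cast_nonneg _
  linarith

/-- finitely many zeros in bounded parts of the strip -/
lemma fin_strip {X : ℂ → ℂ} (hX : Differentiable ℂ X) (hst : ∀ s, X s = 0 → |s.re| ≤ 1 / 2) (a b : ℝ) :
    {s : ℂ | X s = 0 ∧ a ≤ s.im ∧ s.im ≤ b}.Finite := by
  have hne : X 1 ≠ 0 := by
    intro h0
    have := hst 1 h0
    norm_num at this
  have hK : IsCompact (Icc (-(1 / 2 : ℝ)) (1 / 2) ×ℂ Icc a b) := isCompact_Icc.reProdIm isCompact_Icc
  refine (Pool.Agent.W605.SD.fin_zeros hX hne hK).subset ?_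
  rintro s ⟨h1, h2, h3⟩
  refine ⟨?_, h1⟩
  rw [mem_reProdIm]
  have := abs_le.1 (hst s h1)
  exact ⟨⟨this.1, this.2⟩, h2, h3⟩

theorem main_s {X G : ℂ → ℂ} {v : ℂ} (hv : v ≠ 0) (hG : ∀ z, G z = v * X (I * z)) (hX : Differentiable ℂ X)
    (happ : AppX X)
    (hdd : ∃ c C : ℝ, 0 < c ∧ 0 < C ∧ ∀ (n : ℕ) (T : ℝ), 2 ≤ T → ∀ S : Finset ℂ,
      (∀ s ∈ S, bad X n s ∧ 0 < s.im ∧ s.im ≤ T) →
      ∑ s ∈ S, (analyticOrderNatAt (iteratedDeriv n X) s : ℝ) ≤ C * T * Real.log T * Real.exp (-(c * n)))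
    (hlow : LowX X)
    (htot : ∀ K : ℝ, 1 ≤ K → ∃ c T0 : ℝ, 0 < c ∧ 2 ≤ T0 ∧ ∀ (n : ℕ) (T : ℝ), T0 ≤ T → (n : ℝ) ≤ K * Real.log T →
      ∃ S : Finset ℂ, (∀ s ∈ S, iteratedDeriv n X s = 0 ∧ 0 < s.im ∧ s.im ≤ T) ∧
        c * T * Real.log T ≤ ∑ s ∈ S, (analyticOrderNatAt (iteratedDeriv n X) s : ℝ))
    (hhi : ∀ δ : ℝ, 0 < δ → S_HID X 1 δ) :
    (∀ (n : ℕ) (T : ℝ), (ZerD G n T).Finite) ∧
    ∀ ε δ : ℝ, 0 < ε → 0 < δ → ∃ c C : ℝ, 0 < c ∧ 0 < C ∧
      (∀ (n : ℕ) (T : ℝ), (num (iteratedDeriv n G) (ExcS G ε δ n T) : ℝ) ≤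
        C * Real.exp (-(c * n)) * num (iteratedDeriv n G) (ZerD G n T)) ∧
      (∀ (n : ℕ) (T : ℝ), 2 ≤ T → (num (iteratedDeriv n G) (ExcS G ε δ n T) : ℝ) ≤
        C * Real.exp (-(c * n)) * T * Real.log T) := by
  obtain ⟨hfin, c1, C1, hc1, hC1, hprop, habs⟩ := main_d hv hG hX happ hdd hlow htot
  refine ⟨hfin, ?_⟩
  intro ε δ hε hδ
  obtain ⟨c2, C2, hc2, hC2, hhi⟩ := hhi δ hδ ε hε
  obtain ⟨c3, T0, hc3, hT0, htot⟩ := htot (max 1 (1 / δ)) (le_max_left _ _)
  obtain ⟨N, hN⟩ := exists_nat_ge (Real.log T0 / δ)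
  rw [div_le_iff₀ hδ] at hN
  have hder : ∀ (n : ℕ) (z : ℂ), iteratedDeriv n G z = v * I ^ n * iteratedDeriv n X (I * z) := by
    intro n z
    have h1 : G = fun z => v * X (I * z) := funext hG
    have h2 : ContDiff ℂ (n : WithTop ℕ∞) (fun z => X (I * z)) :=
      hX.contDiff.comp (contDiff_const.mul contDiff_id)
    rw [h1, iteratedDeriv_const_mul v h2.contDiffAt]
    have h3 := congrFun (iteratedDeriv_comp_const_mul (n := n) (f := X) hX.contDiff I) z
    rw [h3]
    ring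
  have hvn : ∀ n : ℕ, v * I ^ n ≠ 0 := fun n => mul_ne_zero hv (pow_ne_zero n I_ne_zero)
  have hXn : ∀ n, Differentiable ℂ (iteratedDeriv n X) := fun n => Pool.Agent.H24R2.JP.ParCircAux.diff_iter hX n
  have hzero : ∀ (n : ℕ) (z : ℂ), iteratedDeriv n G z = 0 ↔ iteratedDeriv n X (I * z) = 0 := by
    intro n z
    rw [hder n z, mul_eq_zero]
    exact ⟨fun h => h.resolve_left (hvn n), Or.inr⟩
  obtain ⟨NF, hNF⟩ : ∃ NF : ℕ → ℝ → Set ℂ, NF = fun n T => {z | z ∈ ZerD G n T ∧
    Real.exp (δ * (n + 1)) ≤ z.re ∧ ¬ FolG G n ε z} := ⟨_, rfl⟩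
  have hNFs : ∀ n T, NF n T ⊆ ZerD G n T := by
    intro n T z hz
    rw [hNF] at hz
    exact hz.1
  have hNFf : ∀ n T, (NF n T).Finite := fun n T => (hfin n T).subset (hNFs n T)
  have hExcf : ∀ n T, (ExcD G n T).Finite := fun n T => (hfin n T).subset fun z hz => hz.1
  have hsub : ∀ n T, ExcS G ε δ n T ⊆ ExcD G n T ∪ NF n T := by
    rintro n T z ⟨hz, h1⟩
    rw [hNF]
    rcases h1 with h1 | h1 | h1
    · exact Or.inl ⟨hz, Or.inl h1⟩
    · exact Or.inl ⟨hz, Or.inr h1⟩
    · exact Or.inr ⟨hz, h1⟩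
  have hnum : ∀ n T, (num (iteratedDeriv n G) (ExcS G ε δ n T) : ℝ) ≤
      num (iteratedDeriv n G) (ExcD G n T) + num (iteratedDeriv n G) (NF n T) := fun n T =>
    num_union (hExcf n T) (hNFf n T) (hsub n T)
  have hNFP : ∀ (n : ℕ) (T : ℝ), ∀ z ∈ NF n T, iteratedDeriv n X (I * z) = 0 ∧
      Real.exp (δ * (n + 1)) ≤ (I * z).im ∧ (I * z).im ≤ T ∧
      ¬ Fol X n (1 * Real.log (I * z).im) ε (I * z) := by
    intro n T z hz
    rw [hNF] at hz
    obtain ⟨⟨k1, k2, k3⟩, k4, k5⟩ := hz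
    refine ⟨(hzero n z).1 k1, by rw [rot_im]; exact k4, by rw [rot_im]; exact k3, ?_⟩
    rintro ⟨f1, f2, g, g1, g2, g3, g4, g5⟩
    apply k5
    have e1 : I * z + g * I = I * (z + g) := by ring
    rw [e1] at g3 g4 g5
    refine ⟨g, g1, ?_, (hzero n _).2 g3, fun h0 => g4 ((hzero (n + 1) _).1 h0), ?_⟩
    · rw [one_mul, rot_im] at g2
      exact g2
    · intro w hw hw1 hw2
      rcases g5 (I * w) ((hzero n w).1 hw) (by rw [rot_im, rot_im]; exact hw1)
        (by rw [rot_im, rot_im]; exact hw2) with h | h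
      · exact Or.inl (mul_left_cancel₀ I_ne_zero h)
      · exact Or.inr (mul_left_cancel₀ I_ne_zero h)
  have hbig : ∀ (n : ℕ) (T : ℝ), T < Real.exp (δ * (n + 1)) → NF n T = ∅ := by
    intro n T hT
    rw [Set.eq_empty_iff_forall_notMem]
    intro z hz
    rw [hNF] at hz
    obtain ⟨⟨k1, k2, k3⟩, k4, k5⟩ := hz
    linarith
  have hNFb : ∀ (n : ℕ) (T : ℝ), 2 ≤ T → (num (iteratedDeriv n G) (NF n T) : ℝ) ≤
      C2 * T * Real.log T * Real.exp (-(c2 * n)) := fun n T hT =>
    num_le (hvn n) (hXn n) (hder n) (hNFf n T) (hNFP n T) (hhi n T hT)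
  have hE : ∀ (c : ℝ) (n : ℕ), min c1 c2 ≤ c → Real.exp (-(c * n)) ≤ Real.exp (-(min c1 c2 * n)) := by
    intro c n hc
    apply Real.exp_le_exp.2
    have : min c1 c2 * n ≤ c * n := mul_le_mul_of_nonneg_right hc (Nat.cast_nonneg n)
    linarith
  obtain ⟨Q, hQ⟩ : ∃ Q : ℝ, Q = C2 / c3 + Real.exp (c2 * N) := ⟨_, rfl⟩
  have hQ0 : 0 < Q := by rw [hQ]; positivity
  refine ⟨min c1 c2, C1 + C2 + Q, lt_min hc1 hc2, by positivity, ?_, ?_⟩
  · intro n T
    have hZ0 : (0 : ℝ) ≤ num (iteratedDeriv n G) (ZerD G n T) := Nat.cast_nonneg _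
    have hA := hprop n T
    have hNp : (num (iteratedDeriv n G) (NF n T) : ℝ) ≤
        Q * Real.exp (-(c2 * n)) * num (iteratedDeriv n G) (ZerD G n T) := by
      rcases lt_or_ge T (Real.exp (δ * (n + 1))) with hT | hT
      · rw [hbig n T hT, num_empty]
        positivity
      · have hTpos : 0 < T := (Real.exp_pos _).trans_le hT
        have hlog : δ * (n + 1) ≤ Real.log T := by
          rw [Real.le_log_iff_exp_le hTpos]
          exact hT
        rcases lt_or_ge T T0 with hTT | hTT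
        · have hlT : Real.log T ≤ Real.log T0 := Real.log_le_log hTpos hTT.le
          have hnN : (n : ℝ) ≤ N := by
            have h8 : δ * (n + 1) ≤ δ * N := by linarith
            have h9 : (n : ℝ) + 1 ≤ N := le_of_mul_le_mul_left h8 hδ
            linarith
          have h4 : 1 ≤ Real.exp (c2 * N) * Real.exp (-(c2 * n)) := by
            rw [← Real.exp_add]
            apply Real.one_le_exp
            nlinarith
          calc (num (iteratedDeriv n G) (NF n T) : ℝ) ≤ num (iteratedDeriv n G) (ZerD G n T) :=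
                num_mono (hfin n T) (hNFs n T)
            _ = 1 * num (iteratedDeriv n G) (ZerD G n T) := by ring
            _ ≤ (Real.exp (c2 * N) * Real.exp (-(c2 * n))) * num (iteratedDeriv n G) (ZerD G n T) := by
              gcongr
            _ ≤ _ := by
              have : 0 ≤ C2 / c3 * Real.exp (-(c2 * n)) * num (iteratedDeriv n G) (ZerD G n T) := by
                positivity
              rw [hQ]
              linarith
        · have hT2 : 2 ≤ T := hT0.trans hTT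
          have hl0 : 0 < Real.log T := Real.log_pos (by linarith)
          have hn1 : (n : ℝ) ≤ max 1 (1 / δ) * Real.log T := by
            have h8 : δ * n ≤ Real.log T := by linarith
            have h9 : (n : ℝ) ≤ 1 / δ * Real.log T := by
              rw [one_div, inv_mul_eq_div, le_div_iff₀ hδ]
              linarith
            refine h9.trans ?_
            gcongr
            exact le_max_right _ _
          obtain ⟨S, hS1, hS2⟩ := htot n T hTT hn1
          have h7 : c3 * T * Real.log T ≤ num (iteratedDeriv n G) (ZerD G n T) := by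
            refine hS2.trans (num_ge (hvn n) (hXn n) (hder n) (hfin n T) ?_)
            intro s hs
            obtain ⟨k1, k2, k3⟩ := hS1 s hs
            have e : (-I * s).re = s.im := by rw [← rot_im, rot_inv]
            refine ⟨by rw [hzero, rot_inv]; exact k1, by rw [e]; exact k2, by rw [e]; exact k3⟩
          refine (hNFb n T hT2).trans ?_
          calc C2 * T * Real.log T * Real.exp (-(c2 * n)) =
                C2 / c3 * Real.exp (-(c2 * n)) * (c3 * T * Real.log T) := by field_simp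
            _ ≤ C2 / c3 * Real.exp (-(c2 * n)) * num (iteratedDeriv n G) (ZerD G n T) := by gcongr
            _ ≤ _ := by
              have : 0 ≤ Real.exp (c2 * N) * Real.exp (-(c2 * n)) * num (iteratedDeriv n G) (ZerD G n T) := by
                positivity
              rw [hQ]
              linarith
    have e1 := hE c1 n (min_le_left _ _)
    have e2 := hE c2 n (min_le_right _ _)
    calc (num (iteratedDeriv n G) (ExcS G ε δ n T) : ℝ) ≤ _ := hnum n T
      _ ≤ C1 * Real.exp (-(c1 * n)) * num (iteratedDeriv n G) (ZerD G n T) +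
          Q * Real.exp (-(c2 * n)) * num (iteratedDeriv n G) (ZerD G n T) := add_le_add hA hNp
      _ ≤ C1 * Real.exp (-(min c1 c2 * n)) * num (iteratedDeriv n G) (ZerD G n T) +
          Q * Real.exp (-(min c1 c2 * n)) * num (iteratedDeriv n G) (ZerD G n T) := by gcongr
      _ ≤ _ := by
          have : 0 ≤ C2 * Real.exp (-(min c1 c2 * n)) * num (iteratedDeriv n G) (ZerD G n T) := by
            have := Real.exp_pos (-(min c1 c2 * n))
            positivity
          linarith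
  · intro n T hT
    have hA := habs n T hT
    have hB := hNFb n T hT
    have hl : 0 ≤ Real.log T := Real.log_nonneg (by linarith)
    have hT0' : 0 ≤ T := by linarith
    have e1 := hE c1 n (min_le_left _ _)
    have e2 := hE c2 n (min_le_right _ _)
    calc (num (iteratedDeriv n G) (ExcS G ε δ n T) : ℝ) ≤ _ := hnum n T
      _ ≤ C1 * Real.exp (-(c1 * n)) * T * Real.log T + C2 * T * Real.log T * Real.exp (-(c2 * n)) :=
          add_le_add hA hB
      _ ≤ C1 * Real.exp (-(min c1 c2 * n)) * T * Real.log T +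
          C2 * T * Real.log T * Real.exp (-(min c1 c2 * n)) := by gcongr
      _ ≤ _ := by
          have : 0 ≤ Q * Real.exp (-(min c1 c2 * n)) * T * Real.log T := by
            have := Real.exp_pos (-(min c1 c2 * n))
            positivity
          linarith

end Pool.Agent.P8H15.DS
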