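import Pool.Agent.P8H15.DS.Stm2
import Pool.Agent.P8H75.DS.Hi

set_option autoImplicit false

/-!
# Project DS: all heights above `exp (δ (n + 1))`

Variant of `hi_of` and `hi_scale` of `Pool.Agent.P8H75.DS.Hi` (helper75).
-/

namespace Pool.Agent.P8H15.DS

open Complex Filter Topology MeasureTheory Set Polynomial
open Pool.Agent.Y671.LD
open Pool.Agent.P8H75.DS

/-- All heights above `exp (δ (n + 1))` and above a constant. -/
def S_HIT (F : ℂ → ℂ) (κ δ : ℝ) : Prop := ∀ ε : ℝ, 0 < ε → ∃ c C T1 : ℝ, 0 < c ∧ 0 < C ∧ 2 ≤ T1 ∧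
  ∀ (n : ℕ) (T : ℝ), 2 ≤ T → ∀ S : Finset ℂ,
  (∀ s ∈ S, iteratedDeriv n F s = 0 ∧ Real.exp (δ * (n + 1)) ≤ s.im ∧ T1 < s.im ∧ s.im ≤ T ∧
    ¬ Fol F n (κ * Real.log s.im) ε s) →
  ∑ s ∈ S, (analyticOrderNatAt (iteratedDeriv n F) s : ℝ) ≤ C * T * Real.log T * Real.exp (-(c * n))

theorem hit_of {F : ℂ → ℂ} {δ : ℝ} (hδ : 0 < δ) (h5 : Unt F) (h : S_MIDK F (2 / δ)) :
    S_HIT F (1 / 2) δ := by
  classical
  intro ε hε
  obtain ⟨c, C, T0, n0, hc, hC, hT0, hmid⟩ := h (ε / 2) (by positivity)
  obtain ⟨C5, T5, hC5, hT5, hunit⟩ := h5 1 le_rfl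
  have hpi := Real.pi_pos
  obtain ⟨T1, hT1⟩ : ∃ T1 : ℝ, T1 = max (max T0 T5) (Real.exp (n0 + 1 + 2 * (Real.pi + ε / 2) / ε)) := ⟨_, rfl⟩
  have h1 : T0 ≤ T1 := by rw [hT1]; exact (le_max_left _ _).trans (le_max_left _ _)
  have h2 : T5 ≤ T1 := by rw [hT1]; exact (le_max_right _ _).trans (le_max_left _ _)
  have h3 : Real.exp (n0 + 1 + 2 * (Real.pi + ε / 2) / ε) ≤ T1 := by rw [hT1]; exact le_max_right _ _
  have h12 : 2 ≤ T1 := hT0.trans h1
  have hq : 0 < 2 * (Real.pi + ε / 2) / ε := by positivity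
  have hlT1 : n0 + 1 + 2 * (Real.pi + ε / 2) / ε ≤ Real.log T1 := by
    rw [Real.le_log_iff_exp_le (by linarith)]
    exact h3
  obtain ⟨C', hC'⟩ : ∃ C' : ℝ, C' = C + 4 * C5 * Real.exp (c * n0) := ⟨_, rfl⟩
  have hC'0 : 0 < C' := by rw [hC']; positivity
  refine ⟨c, 2 * C', T1, hc, by positivity, h12, ?_⟩
  intro n T hT S hS
  have hE := Real.exp_pos (-(c * (n : ℝ)))
  have hn : (0 : ℝ) ≤ n := Nat.cast_nonneg n
  have hn0 : (0 : ℝ) ≤ n0 := Nat.cast_nonneg n0
  have hlT : 0 ≤ Real.log T := Real.log_nonneg (by linarith)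
  rcases lt_or_ge T T1 with hTX | hTX
  · have h6 : S = ∅ := by
      rw [Finset.eq_empty_iff_forall_notMem]
      intro s hs
      obtain ⟨-, -, k3, k4, -⟩ := hS s hs
      linarith
    rw [h6, Finset.sum_empty]
    positivity
  obtain ⟨k, hk⟩ : ∃ k : ℕ, T < 2 ^ k := pow_unbounded_of_one_lt T (by norm_num)
  have hmain := dy_gen (P := fun s => iteratedDeriv n F s = 0 ∧ Real.exp (δ * (n + 1)) ≤ s.im ∧
      ¬ Fol F n (1 / 2 * Real.log s.im) ε s)
    (a := fun s => (analyticOrderNatAt (iteratedDeriv n F) s : ℝ))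
    (D := C' * Real.exp (-(c * n))) (X₀ := T1) (by positivity) h12
    (by
      intro X hX S' hS'
      have hX2 : 2 ≤ X := by linarith
      have hX0 : 0 < X := by linarith
      have hlX : Real.log T1 ≤ Real.log X := Real.log_le_log (by linarith) hX
      have hlX0 : 0 < Real.log X := by linarith
      have hl2 : Real.log 2 ≤ Real.log X := Real.log_le_log (by norm_num) hX2
      rcases lt_or_ge n n0 with hnn | hnn
      · have hnn' : (n : ℝ) ≤ n0 := by exact_mod_cast hnn.le
        have h11 := window F zero_le_one hC5 hT5 hunit n X X (by linarith) (by linarith) hX0.le S' (by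
          intro s hs
          obtain ⟨⟨k1, k2, k3⟩, k4, k5⟩ := hS' s hs
          exact ⟨k4.le, by linarith, k1⟩)
        refine h11.trans ?_
        have h13 : Real.log (X + X) ≤ 2 * Real.log X := by
          rw [← two_mul, Real.log_mul (by norm_num) hX0.ne']
          linarith
        have h14 : 1 ≤ Real.exp (c * n0) * Real.exp (-(c * n)) := by
          rw [← Real.exp_add]
          apply Real.one_le_exp
          nlinarith
        calc (X + 1) * (C5 * Real.log (X + X)) ≤ (2 * X) * (C5 * (2 * Real.log X)) := by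
              apply mul_le_mul (by linarith) (mul_le_mul_of_nonneg_left h13 hC5.le) _ (by positivity)
              exact mul_nonneg hC5.le (Real.log_nonneg (by linarith))
          _ = (4 * C5 * X * Real.log X) * 1 := by ring
          _ ≤ (4 * C5 * X * Real.log X) * (Real.exp (c * n0) * Real.exp (-(c * n))) :=
              mul_le_mul_of_nonneg_left h14 (by positivity)
          _ ≤ C * Real.exp (-(c * n)) * X * Real.log X +
              (4 * C5 * X * Real.log X) * (Real.exp (c * n0) * Real.exp (-(c * n))) := by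
              have : 0 ≤ C * Real.exp (-(c * n)) * X * Real.log X := by positivity
              linarith
          _ = C' * Real.exp (-(c * n)) * X * Real.log X := by rw [hC']; ring
      · rcases S'.eq_empty_or_nonempty with he | ⟨s0, hs0⟩
        · rw [he, Finset.sum_empty]
          positivity
        have hnK : (n : ℝ) ≤ 2 / δ * Real.log X := by
          obtain ⟨⟨k1, k2, k3⟩, k4, k5⟩ := hS' s0 hs0
          have h15 : δ * (n + 1) ≤ Real.log (2 * X) := by
            rw [Real.le_log_iff_exp_le (by positivity)]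
            linarith
          rw [Real.log_mul (by norm_num) hX0.ne'] at h15
          have h16 : δ * n ≤ 2 * Real.log X := by linarith
          have e : 2 / δ * Real.log X = 2 * Real.log X / δ := by ring
          rw [e, le_div_iff₀ hδ]
          linarith
        refine (hmid X n (h1.trans hX) hnn hnK S' ?_).trans ?_
        · intro s hs
          obtain ⟨⟨k1, k2, k3⟩, k4, k5⟩ := hS' s hs
          refine ⟨k1, k4, k5, ?_⟩
          intro hfol
          apply k3
          have hs0 : 0 < s.im := by linarith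
          refine fol_change (by positivity) ?_ hfol
          have h8 : Real.log X ≤ Real.log s.im := Real.log_le_log hX0 k4.le
          have h9 : Real.log s.im ≤ Real.log X + 1 := by
            have h10 := Real.log_le_log hs0 k5
            rw [Real.log_mul (by norm_num) hX0.ne'] at h10
            have := Real.log_two_lt_d9
            linarith
          have h11 : |1 / 2 * Real.log s.im - Real.log X / 2| ≤ 1 / 2 := by
            rw [abs_le]
            constructor <;> linarith
          have h12 : 2 * (Real.pi + ε / 2) / ε ≤ Real.log X := by linarith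
          rw [div_le_iff₀ hε] at h12
          calc |1 / 2 * Real.log s.im - Real.log X / 2| * (Real.pi + ε / 2)
              ≤ 1 / 2 * (Real.pi + ε / 2) := mul_le_mul_of_nonneg_right h11 (by positivity)
            _ ≤ ε / 2 * (Real.log X / 2) := by linarith
        · have h17 : 0 ≤ 4 * C5 * Real.exp (c * n0) * Real.exp (-(c * n)) * X * Real.log X := by
            positivity
          calc C * X * Real.exp (-(c * n)) * Real.log X ≤ C * X * Real.exp (-(c * n)) * Real.log X +
                4 * C5 * Real.exp (c * n0) * Real.exp (-(c * n)) * X * Real.log X := by linarith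
            _ = C' * Real.exp (-(c * n)) * X * Real.log X := by rw [hC']; ring)
    k T hTX (by
      have h2 : (0 : ℝ) < 2 ^ k := by positivity
      nlinarith) S (by
      intro s hs
      obtain ⟨k1, k2, k3, k4, k5⟩ := hS s hs
      exact ⟨⟨k1, k2, k5⟩, k3, k4⟩)
  refine hmain.trans (le_of_eq ?_)
  ring

theorem hit_scale {X : ℂ → ℂ} {κ δ : ℝ} (hκ : 1 / 2 ≤ κ) (hX : Differentiable ℂ X)
    (h : S_HIT (fun z => X (z / ((2 * κ : ℝ) : ℂ))) (1 / 2) δ) : S_HIT X κ δ := by
  classical
  intro ε hε
  obtain ⟨c, C, T0, hc, hC, hT0, hmain⟩ := h (ε / 2) (by positivity)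
  obtain ⟨b, hb⟩ : ∃ b : ℝ, b = 2 * κ := ⟨_, rfl⟩
  rw [← hb] at hmain
  have hb1 : 1 ≤ b := by linarith
  have hb0 : 0 < b := by linarith
  have hbc : (b : ℂ) ≠ 0 := by exact_mod_cast hb0.ne'
  have hlb : 0 ≤ Real.log b := Real.log_nonneg hb1
  have hpi := Real.pi_pos
  have hinv : ((1 / b : ℝ) : ℂ) ≠ 0 := by
    norm_cast
    positivity
  obtain ⟨T1, hT1⟩ : ∃ T1 : ℝ, T1 = max T0 (Real.exp (1 + 2 * (Real.log b * (Real.pi + ε / 2)) / ε)) := ⟨_, rfl⟩
  have hT01 : T0 ≤ T1 := by rw [hT1]; exact le_max_left _ _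
  have hTe : Real.exp (1 + 2 * (Real.log b * (Real.pi + ε / 2)) / ε) ≤ T1 := by rw [hT1]; exact le_max_right _ _
  refine ⟨c, C * b * (1 + 2 * Real.log b), T1, hc, by positivity, hT0.trans hT01, ?_⟩
  intro n T hT S hS
  have hn : (0 : ℝ) ≤ n := Nat.cast_nonneg n
  have hlT : 1 / 2 ≤ Real.log T := by
    have h3 : Real.log 2 ≤ Real.log T := Real.log_le_log (by norm_num) hT
    have := Real.log_two_gt_d9
    linarith
  set G : ℂ → ℂ := fun z => X (z / (b : ℂ)) with hG
  have hit : ∀ (m : ℕ) (z : ℂ), iteratedDeriv m G ((b : ℂ) * z) =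
      ((1 / b : ℝ) : ℂ) ^ m * iteratedDeriv m X z := by
    intro m z
    rw [hG, iter_div hX, mul_div_cancel_left₀ _ hbc]
  have hit0 : ∀ (m : ℕ) (z : ℂ), iteratedDeriv m G ((b : ℂ) * z) = 0 ↔
      iteratedDeriv m X z = 0 := by
    intro m z
    rw [hit, mul_eq_zero]
    exact or_iff_right (pow_ne_zero m hinv)
  have h8 := hmain n (b * T) (by nlinarith) (S.image (fun s => (b : ℂ) * s)) (by
    intro s hs
    rw [Finset.mem_image] at hs
    obtain ⟨w, hw, rfl⟩ := hs
    obtain ⟨k1, k2, k2', k3, k4⟩ := hS w hw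
    have hw0 : 0 < w.im := lt_of_lt_of_le (Real.exp_pos _) k2
    have him : ((b : ℂ) * w).im = b * w.im := Complex.im_ofReal_mul _ _
    refine ⟨(hit0 n w).mpr k1, ?_, ?_, ?_, ?_⟩
    · rw [him]
      nlinarith
    · rw [him]
      nlinarith
    · rw [him]
      gcongr
    · intro hfol
      apply k4
      have hlw : 1 + 2 * (Real.log b * (Real.pi + ε / 2)) / ε ≤ Real.log w.im := by
        rw [Real.le_log_iff_exp_le hw0]
        exact hTe.trans k2'.le
      have hq : 0 ≤ 2 * (Real.log b * (Real.pi + ε / 2)) / ε := by positivity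
      have hlw0 : 0 < Real.log w.im := by linarith
      have hlbw : Real.log (b * w.im) = Real.log b + Real.log w.im :=
        Real.log_mul hb0.ne' hw0.ne'
      -- change the normalising factor
      have hfol' : Fol G n (1 / 2 * Real.log w.im) ε ((b : ℂ) * w) := by
        rw [him, hlbw] at hfol
        refine fol_change (by positivity) ?_ hfol
        have e1 : |1 / 2 * Real.log w.im - 1 / 2 * (Real.log b + Real.log w.im)| =
            1 / 2 * Real.log b := by
          rw [show 1 / 2 * Real.log w.im - 1 / 2 * (Real.log b + Real.log w.im) =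
            -(1 / 2 * Real.log b) by ring, abs_neg, abs_of_nonneg (by positivity)]
        rw [e1]
        have h12 : 2 * (Real.log b * (Real.pi + ε / 2)) / ε ≤ Real.log w.im := by linarith
        rw [div_le_iff₀ hε] at h12
        have h13 : 0 ≤ ε / 2 * (1 / 2 * Real.log b) := by positivity
        nlinarith
      obtain ⟨h1, h2, g, hg0, hg, h3, h4, h5⟩ := hfol'
      have hgI : (b : ℂ) * w + g * I = (b : ℂ) * (w + ((g / b : ℝ) : ℂ) * I) := by
        push_cast
        field_simp
      refine ⟨?_, ?_, g / b, by positivity, ?_, ?_, ?_, ?_⟩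
      · rw [Complex.re_ofReal_mul, mul_eq_zero] at h1
        exact h1.resolve_left hb0.ne'
      · intro h0
        exact h2 ((hit0 (n + 1) w).mpr h0)
      · have e2 : g / b * (κ * Real.log w.im) = g * (1 / 2 * Real.log w.im) := by
          rw [hb]
          have hκ0 : κ ≠ 0 := by
            intro h0
            rw [h0] at hκ
            norm_num at hκ
          field_simp
        rw [e2]
        exact hg
      · rw [hgI, hit0] at h3
        exact h3
      · intro h0
        apply h4
        rw [hgI, hit0]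
        exact h0
      · intro z hz hz1 hz2
        have h6 := h5 ((b : ℂ) * z) ((hit0 n z).mpr hz) (by
          rw [him, Complex.im_ofReal_mul]
          exact mul_le_mul_of_nonneg_left hz1 hb0.le) (by
          rw [him, Complex.im_ofReal_mul]
          have h7 : b * z.im ≤ b * (w.im + g / b) := mul_le_mul_of_nonneg_left hz2 hb0.le
          have h8 : b * (w.im + g / b) = b * w.im + g := by
            field_simp
          linarith)
        rcases h6 with h6 | h6
        · left
          exact mul_left_cancel₀ hbc h6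
        · right
          rw [hgI] at h6
          exact mul_left_cancel₀ hbc h6)
  rw [Finset.sum_image (by
    intro x _ y _ hxy
    exact mul_left_cancel₀ hbc hxy)] at h8
  have h9 : ∀ s ∈ S, (analyticOrderNatAt (iteratedDeriv n X) s : ℝ) =
      (analyticOrderNatAt (iteratedDeriv n G) ((b : ℂ) * s) : ℝ) := by
    intro s _
    have e1 : iteratedDeriv n G = fun z => ((1 / b : ℝ) : ℂ) ^ n *
        iteratedDeriv n X (z / (b : ℂ)) := by
      funext z
      rw [hG, iter_div hX]
    rw [e1, order_const_mul (pow_ne_zero n hinv), order_scale' hb0]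
    have : Differentiable ℂ (fun z => iteratedDeriv n X (z / (b : ℂ))) :=
      (iter_diff hX n).comp (by fun_prop)
    exact this.analyticAt _
  rw [Finset.sum_congr rfl h9]
  refine h8.trans ?_
  have h10 : Real.log (b * T) ≤ (1 + 2 * Real.log b) * Real.log T := by
    rw [Real.log_mul hb0.ne' (by linarith)]
    nlinarith
  have h11 : 0 < Real.exp (-(c * n)) := Real.exp_pos _
  calc C * (b * T) * Real.log (b * T) * Real.exp (-(c * n))
      ≤ C * (b * T) * ((1 + 2 * Real.log b) * Real.log T) * Real.exp (-(c * n)) := by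
        gcongr
    _ = _ := by ring

/-- the low zeros -/
theorem hid_of_hit {F : ℂ → ℂ} {κ δ : ℝ} (hδ : 0 < δ)
    (hfin : ∀ (n : ℕ) (T : ℝ), {s : ℂ | iteratedDeriv n F s = 0 ∧ 0 ≤ s.im ∧ s.im ≤ T}.Finite)
    (h : S_HIT F κ δ) : S_HID F κ δ := by
  classical
  intro ε hε
  obtain ⟨c, C, T1, hc, hC, hT1, hmain⟩ := h ε hε
  obtain ⟨D, hD⟩ : ∃ D : ℕ → ℝ, D = fun n => ∑ s ∈ (hfin n T1).toFinset,
    (analyticOrderNatAt (iteratedDeriv n F) s : ℝ) := ⟨_, rfl⟩
  have hD0 : ∀ n, 0 ≤ D n := by
    intro n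
    rw [hD]
    exact Finset.sum_nonneg fun _ _ => Nat.cast_nonneg _
  obtain ⟨N, hN⟩ := exists_nat_ge (Real.log T1 / δ)
  rw [div_le_iff₀ hδ] at hN
  obtain ⟨Q, hQ⟩ : ∃ Q : ℝ, Q = (∑ n ∈ Finset.range (N + 1), D n) * Real.exp (c * N) := ⟨_, rfl⟩
  have hQ0 : 0 ≤ Q := by
    rw [hQ]
    exact mul_nonneg (Finset.sum_nonneg fun _ _ => hD0 _) (Real.exp_pos _).le
  refine ⟨c, C + Q, hc, by positivity, ?_⟩
  intro n T hT S hS
  have hE := Real.exp_pos (-(c * (n : ℝ)))
  have hl2 : 1 / 2 ≤ Real.log T := by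
    have h3 : Real.log 2 ≤ Real.log T := Real.log_le_log (by norm_num) hT
    have := Real.log_two_gt_d9
    linarith
  have hTl : 1 ≤ T * Real.log T := by nlinarith
  have hhigh := hmain n T hT (S.filter fun s => ¬ s.im ≤ T1) (by
    intro s hs
    rw [Finset.mem_filter, not_le] at hs
    obtain ⟨k1, k2, k3, k4⟩ := hS s hs.1
    exact ⟨k1, k2, hs.2, k3, k4⟩)
  have hlow : ∑ s ∈ S.filter (fun s => s.im ≤ T1), (analyticOrderNatAt (iteratedDeriv n F) s : ℝ) ≤
      Q * Real.exp (-(c * n)) := by
    rcases lt_or_ge N n with hn | hn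
    · have h6 : S.filter (fun s => s.im ≤ T1) = ∅ := by
        rw [Finset.filter_eq_empty_iff]
        intro s hs hs1
        obtain ⟨k1, k2, k3, k4⟩ := hS s hs
        have h7 : δ * (n + 1) ≤ Real.log T1 := by
          rw [Real.le_log_iff_exp_le (by linarith)]
          linarith
        have h8 : (N : ℝ) + 1 ≤ n := by exact_mod_cast hn
        have h9 : δ * (N + 1 + 1) ≤ δ * (n + 1) := by gcongr
        linarith
      rw [h6, Finset.sum_empty]
      positivity
    · have h3 : D n ≤ ∑ n ∈ Finset.range (N + 1), D n :=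
        Finset.single_le_sum (f := D) (fun _ _ => hD0 _) (Finset.mem_range.2 (by omega))
      have h4 : 1 ≤ Real.exp (c * N) * Real.exp (-(c * n)) := by
        rw [← Real.exp_add]
        apply Real.one_le_exp
        have : (n : ℝ) ≤ N := by exact_mod_cast hn
        nlinarith
      have h5 : 0 ≤ ∑ n ∈ Finset.range (N + 1), D n := Finset.sum_nonneg fun _ _ => hD0 _
      have h6 : ∑ s ∈ S.filter (fun s => s.im ≤ T1), (analyticOrderNatAt (iteratedDeriv n F) s : ℝ) ≤ D n := by
        rw [hD]
        refine Finset.sum_le_sum_of_subset_of_nonneg ?_ fun _ _ _ => Nat.cast_nonneg _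
        intro s hs
        rw [Finset.mem_filter] at hs
        obtain ⟨k1, k2, k3, k4⟩ := hS s hs.1
        rw [Set.Finite.mem_toFinset]
        exact ⟨k1, (Real.exp_pos _).le.trans k2, hs.2⟩
      calc _ ≤ D n := h6
        _ ≤ (∑ n ∈ Finset.range (N + 1), D n) * 1 := by rw [mul_one]; exact h3
        _ ≤ (∑ n ∈ Finset.range (N + 1), D n) * (Real.exp (c * N) * Real.exp (-(c * n))) :=
          mul_le_mul_of_nonneg_left h4 h5
        _ = _ := by rw [hQ]; ring
  rw [← Finset.sum_filter_add_sum_filter_not S (fun s => s.im ≤ T1)]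
  have h7 : Q * Real.exp (-(c * n)) ≤ Q * Real.exp (-(c * n)) * (T * Real.log T) :=
    le_mul_of_one_le_right (by positivity) hTl
  calc _ ≤ Q * Real.exp (-(c * n)) * (T * Real.log T) + C * T * Real.log T * Real.exp (-(c * n)) :=
        add_le_add (hlow.trans h7) hhigh
    _ = _ := by ring

end Pool.Agent.P8H15.DS
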