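import Pool.Agent.P8H15.DS.Stm2
import Pool.Agent.Y671.LD.AllH

set_option autoImplicit false

/-!
# Project DS: the range `log T / 400 ≤ n ≤ K0 log T`
-/

namespace Pool.Agent.P8H15.DS

open Complex Filter Topology MeasureTheory Set
open Pool.Agent.H24R2.JP (Om)
open Pool.Agent.H24R2.DZ (ra NN SCount SB1a SB1b)
open Pool.Agent.Y671.LD

variable {F : ℂ → ℂ}

/-- good scales at one point: the zeros there are followed -/
theorem fol_of_loc (hdiff : Differentiable ℂ F) (h7 : PtA F) (sb1a : SB1a) (sb1b : SB1b) (hgap : S_GAPD)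
    {ε : ℝ} (hε : 0 < ε) : ∃ η : ℝ, ∃ n0 : ℕ, 0 < η ∧ 800 ≤ n0 ∧ ∀ (T : ℝ) (n J : ℕ) (t' : ℝ) (s : ℂ),
      2 ≤ T → n0 ≤ n → iteratedDeriv n F s = 0 → |s.im - t'| ≤ ra T n / 200 →
      (∀ j : ℕ, j ≤ J → NN (2 ^ j * n) η (fun z => F (I * t' + ra T (2 ^ j * n) * z))) →
      (∀ z : ℂ, iteratedDeriv n F z = 0 → |z.im - t'| ≤ ra T n / 100 → |z.re| ≤ 5 * ra T (2 ^ J * n)) →
      Fol F n (Real.log T / 2) ε s := by
  obtain ⟨η7, hη7, hptA⟩ := h7
  obtain ⟨ηa, na, hηa, ha⟩ := sb1a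
  obtain ⟨ηb, nb, hηb, hb⟩ := sb1b
  obtain ⟨ηg, ng, hηg, hng, hg⟩ := hgap ε hε
  obtain ⟨η, hη⟩ : ∃ η : ℝ, η = min (min η7 ηa) (min ηb ηg) := ⟨_, rfl⟩
  have hηp : 0 < η := by rw [hη]; exact lt_min (lt_min hη7 hηa) (lt_min hηb hηg)
  have hη1 : η ≤ η7 := by rw [hη]; exact (min_le_left _ _).trans (min_le_left _ _)
  have hη2 : η ≤ ηa := by rw [hη]; exact (min_le_left _ _).trans (min_le_right _ _)
  have hη3 : η ≤ ηb := by rw [hη]; exact (min_le_right _ _).trans (min_le_left _ _)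
  have hη4 : η ≤ ηg := by rw [hη]; exact (min_le_right _ _).trans (min_le_right _ _)
  refine ⟨η, max 800 (max na (max nb ng)), hηp, le_max_left _ _, ?_⟩
  intro T n J t' s hT hn hs hst hNN hfar
  have hn8 : 800 ≤ n := (le_max_left _ _).trans hn
  have hna : na ≤ n := ((le_max_left _ _).trans (le_max_right _ _)).trans hn
  have hnb : nb ≤ n := (((le_max_left _ _).trans (le_max_right _ _)).trans (le_max_right _ _)).trans hn
  have hnn : ng ≤ n := (((le_max_right _ _).trans (le_max_right _ _)).trans (le_max_right _ _)).trans hn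
  have hn8' : (800 : ℝ) ≤ n := by exact_mod_cast hn8
  have hn0 : (0 : ℝ) < n := by linarith
  have hlT : 0 < Real.log T := Real.log_pos (by linarith)
  obtain ⟨r, hr⟩ : ∃ r : ℝ, r = ra T n := ⟨_, rfl⟩
  have hr0 : 0 < r := by rw [hr]; exact ra_pos hT hn0
  have hrc : (r : ℂ) ≠ 0 := by exact_mod_cast hr0.ne'
  have hrL : r * (Real.log T / 2) = n := by
    rw [hr, ra_eq]
    field_simp
  have hN0 : NN n η (fun z => F (I * t' + r * z)) := by
    have := hNN 0 (Nat.zero_le _)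
    rw [pow_zero, one_mul] at this
    rw [hr]
    exact this
  obtain ⟨G, hG⟩ : ∃ G : ℂ → ℂ, G = fun z => F (I * t' + r * z) := ⟨_, rfl⟩
  rw [← hG] at hN0
  rw [← hr] at hst hfar
  have hGd : ∀ (m : ℕ) (w : ℂ), iteratedDeriv m G w = (r : ℂ) ^ m * iteratedDeriv m F (I * t' + r * w) := by
    intro m w
    rw [hG]
    exact iter_comp hdiff m _ _ _
  have hGz : ∀ (m : ℕ) (w : ℂ), iteratedDeriv m G w = 0 ↔ iteratedDeriv m F (I * t' + r * w) = 0 := by
    intro m w
    rw [hGd, mul_eq_zero]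
    exact ⟨fun h => h.resolve_left (pow_ne_zero _ hrc), Or.inr⟩
  -- the zeros near the point are on the line and simple
  have key : ∀ z : ℂ, iteratedDeriv n F z = 0 → |z.im - t'| ≤ r / 100 →
      z.re = 0 ∧ iteratedDeriv (n + 1) F z ≠ 0 := by
    intro z hz hzt
    have hLoc : Loc F η7 T n 0 J z.im := by
      intro j _ hj
      refine ⟨t', ?_, nn_mono (by positivity) hη1 (hNN j hj)⟩
      refine hzt.trans ?_
      rw [hr, ra_eq, ra_eq]
      have h1 : (n : ℝ) ≤ 2 ^ j * n := le_mul_of_one_le_left hn0.le (one_le_pow₀ (by norm_num))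
      gcongr
    have h1 := hptA T n J 0 z hT (by omega) (Nat.zero_le _) hz hLoc
    rw [pow_zero, one_mul, ← hr] at h1
    have h2 : |z.re| ≤ 5 * r := h1.resolve_right (not_lt.2 (hfar z hz hzt))
    obtain ⟨c1, c2, c3⟩ := coord (s := z) (t' := t') hr0
    obtain ⟨w, hw⟩ : ∃ w : ℂ, w = (z - I * t') / r := ⟨_, rfl⟩
    rw [← hw] at c1 c2 c3
    have hwre : |w.re| ≤ 5 := by
      rw [c2, abs_div, abs_of_pos hr0, div_le_iff₀ hr0]
      exact h2
    have hwim : |w.im| ≤ 1 / 100 := by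
      rw [c3, abs_div, abs_of_pos hr0, div_le_iff₀ hr0]
      linarith
    have hGw : iteratedDeriv n G w = 0 := by
      rw [hGz, c1]
      exact hz
    have hw1 : |w.re| ≤ 1 / 100 := by
      by_contra hcon
      push Not at hcon
      exact ha n G hna (nn_mono hn0.le hη2 hN0) w hcon.le hwre hwim hGw
    obtain ⟨k1, k2⟩ := hb n G hnb (nn_mono hn0.le hη3 hN0) w hw1 hwim hGw
    refine ⟨?_, ?_⟩
    · rw [c2, div_eq_zero_iff] at k1
      exact k1.resolve_right hr0.ne'
    · intro h0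
      apply k2
      rw [hGz, c1]
      exact h0
  have hst' : |s.im - t'| ≤ r / 100 := by linarith
  obtain ⟨s1, s2⟩ := key s hs hst'
  -- the gap
  obtain ⟨y, hy⟩ : ∃ y : ℝ, y = (s.im - t') / r := ⟨_, rfl⟩
  have hyr : r * y = s.im - t' := by rw [hy]; field_simp
  have hy1 : |y| ≤ 1 / 100 := by
    rw [hy, abs_div, abs_of_pos hr0, div_le_iff₀ hr0]
    linarith
  have hsy : s = I * t' + r * (y * I) := by
    apply Complex.ext
    · simp [s1]
    · simp
      linarith
  obtain ⟨h, h1, h2, h3, h4, h5⟩ := hg n G hnn (nn_mono hn0.le hη4 hN0) y hy1 (by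
    rw [hGz, ← hsy]
    exact hs)
  have hh : h ≤ 1 / 200 := by
    by_contra hcon
    push Not at hcon
    have : 800 * h ≤ n * h := mul_le_mul_of_nonneg_right hn8' h1.le
    linarith
  have hsg : ∀ x : ℝ, I * t' + r * (((y + x : ℝ) : ℂ) * I) = s + ((r * x : ℝ) : ℂ) * I := by
    intro x
    rw [hsy]
    push_cast
    ring
  have hzero : iteratedDeriv n F (s + ((r * h : ℝ) : ℂ) * I) = 0 := by
    rw [← hsg, ← hGz]
    exact h4
  have him : (s + ((r * h : ℝ) : ℂ) * I).im = s.im + r * h := by simp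
  have hrh : r * h ≤ r / 200 := by
    have := mul_le_mul_of_nonneg_left hh hr0.le
    linarith
  have hrh0 : 0 < r * h := by positivity
  have hst'' := abs_le.1 hst
  refine ⟨s1, s2, r * h, hrh0, ?_, hzero, ?_, ?_⟩
  · have e : r * h * (Real.log T / 2) = n * h := by
      rw [← hrL]; ring
    rw [e]
    exact h3
  · refine (key _ hzero ?_).2
    rw [him, abs_le]
    constructor <;> linarith
  · intro z hz hz1 hz2
    obtain ⟨k1, -⟩ := key z hz (by rw [abs_le]; constructor <;> linarith)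
    obtain ⟨x, hx⟩ : ∃ x : ℝ, x = (z.im - s.im) / r := ⟨_, rfl⟩
    have hxr : r * x = z.im - s.im := by rw [hx]; field_simp
    have hzx : z = s + ((r * x : ℝ) : ℂ) * I := by
      apply Complex.ext
      · simp [s1, k1]
      · simp
        linarith
    have hx0 : 0 ≤ x := by
      rw [hx]
      apply div_nonneg _ hr0.le
      linarith
    have hxh : x ≤ h := by
      by_contra hcon
      push Not at hcon
      have := mul_lt_mul_of_pos_left hcon hr0
      linarith
    rcases hx0.eq_or_lt with h0 | h0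
    · left
      rw [hzx, ← h0]
      simp
    rcases hxh.eq_or_lt with h6 | h6
    · right
      rw [hzx, h6]
    · exfalso
      apply h5 x h0 h6
      rw [hGz, hsg, ← hzx]
      exact hz

/-- the scales of fixed size -/
theorem nn_top {B : ℝ} {FT : ℝ → ℂ → ℂ} {h : ℝ → ℝ} (hD : HD B F FT h) {c X : ℝ} (hc : 0 < c) (hcX : c ≤ X)
    {η' : ℝ} (hη' : 0 < η') : ∃ R ε0 η T0 : ℝ, 1 ≤ R ∧ 0 < ε0 ∧ 0 < η ∧ 2 ≤ T0 ∧ ∀ (T t a : ℝ), T0 ≤ T →
      T / 2 ≤ t → t ≤ 3 * T → c ≤ ra T a → ra T a ≤ X → FarOK F R ε0 η t →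
      NN a η' (fun z => F (I * t + ra T a * z)) := by
  obtain ⟨η2, hη2⟩ : ∃ η2 : ℝ, η2 = η' / 4 := ⟨_, rfl⟩
  have hη20 : 0 < η2 := by rw [hη2]; positivity
  obtain ⟨R, η, T1, hR, hη, hT1, H⟩ := hung B F FT h hD (1 / 100) c X (by norm_num) (by norm_num) hc hcX η2 hη20
  have hX : 0 < X := hc.trans_le hcX
  refine ⟨R, 1 / 100 * min c 1 / 10, η, max (2 * T1) (Real.exp (2 * X / c * (20 + 2 / η'))), hR,
    by positivity, hη, ?_, ?_⟩
  · exact le_trans (by linarith) (le_max_left _ _)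
  intro T t a hT ht1 ht2 hca haX hfar
  have hTT1 : 2 * T1 ≤ T := (le_max_left _ _).trans hT
  have hTe : Real.exp (2 * X / c * (20 + 2 / η')) ≤ T := (le_max_right _ _).trans hT
  have hTp : 0 < T := by linarith
  have htp : 0 < t := by linarith
  have hlT : 2 * X / c * (20 + 2 / η') ≤ Real.log T := by
    rw [Real.le_log_iff_exp_le hTp]
    exact hTe
  have hlT0 : 0 < Real.log T := lt_of_lt_of_le (by positivity) hlT
  obtain ⟨r, hr⟩ : ∃ r : ℝ, r = ra T a := ⟨_, rfl⟩
  rw [← hr] at hca haX ⊢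
  have hr0 : 0 < r := hc.trans_le hca
  have har : a = r * (Real.log T / 2) := by
    rw [hr, ra_eq]
    field_simp
  have haX20 : 20 * X ≤ a ∧ 2 / η' * X ≤ a := by
    have h1 : c * (2 * X / c * (20 + 2 / η') / 2) ≤ a := by
      rw [har]
      gcongr
    have h2 : c * (2 * X / c * (20 + 2 / η') / 2) = 20 * X + 2 / η' * X := by
      field_simp
    rw [h2] at h1
    have h3 : 0 < 2 / η' * X := by positivity
    constructor <;> linarith
  obtain ⟨hX20, hXη⟩ := haX20
  have hXη' : X ≤ η' / 2 * a := by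
    have : η' / 2 * (2 / η' * X) ≤ η' / 2 * a := by gcongr
    have e : η' / 2 * (2 / η' * X) = X := by field_simp
    linarith
  have hlog : |Real.log t - Real.log T| ≤ 2 := by
    have h3 : Real.log 3 ≤ 2 := by
      have := Real.log_le_sub_one_of_pos (show (0 : ℝ) < 3 by norm_num)
      linarith
    have h2 : Real.log 2 ≤ 1 := by
      have := Real.log_le_sub_one_of_pos (show (0 : ℝ) < 2 by norm_num)
      linarith
    have h4 : Real.log t ≤ Real.log 3 + Real.log T := by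
      rw [← Real.log_mul (by norm_num) hTp.ne']
      exact Real.log_le_log htp ht2
    have h5 : Real.log T - Real.log 2 ≤ Real.log t := by
      rw [← Real.log_div hTp.ne' (by norm_num)]
      exact Real.log_le_log (by positivity) ht1
    rw [abs_le]
    constructor <;> linarith
  obtain ⟨a', ha'⟩ : ∃ a' : ℝ, a' = r * Om t := ⟨_, rfl⟩
  have hdiffa : |a' - a| ≤ X := by
    have e : a' - a = r * ((Real.log t - Real.log T) / 2) := by
      rw [ha', har]
      unfold Om
      ring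
    rw [e, abs_mul, abs_of_pos hr0, abs_div, abs_of_pos (by norm_num : (0 : ℝ) < 2)]
    calc r * (|Real.log t - Real.log T| / 2) ≤ X * (2 / 2) := by gcongr
      _ = X := by ring
  have hd2 := abs_le.1 hdiffa
  have hNG := H t r (2 * r ^ 2) (by linarith) hca haX le_rfl hfar
  rw [← ha'] at hNG
  have ha0 : 0 < a := by linarith
  refine ⟨hNG.diff, hNG.symm, ?_, ?_⟩
  · intro z hz1 hz2
    obtain ⟨k1, k2⟩ := hNG.far z (by linarith) hz2
    refine ⟨k1, ?_⟩
    have e : logDeriv (fun z => F (I * t + r * z)) z - a =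
        (logDeriv (fun z => F (I * t + r * z)) z - a') + ((a' - a : ℝ) : ℂ) := by
      push_cast
      ring
    rw [e]
    refine (norm_add_le _ _).trans ?_
    rw [Complex.norm_real, Real.norm_eq_abs]
    have h1 : η2 * a' ≤ η2 * (2 * a) := by
      gcongr
      linarith
    rw [hη2] at h1 k2
    linarith
  · intro z hz1 hz2
    have k := hNG.near z (by linarith) hz2
    refine k.trans (mul_le_mul_of_nonneg_left (Real.exp_le_exp.2 ?_) (norm_nonneg _))
    linarith

/-- the range `log T / 400 ≤ n ≤ K0 log T` -/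
theorem top {B K : ℝ} {FT : ℝ → ℂ → ℂ} {h : ℝ → ℝ} (hDD : DD B K F) (hHD : HD B F FT h) (hst : Strip F B)
    (h5 : Unt F) (h7 : PtA F) (sb1a : SB1a) (sb1b : SB1b) (hgap : S_GAPD) {K0 : ℝ} (hK0 : 1 ≤ K0)
    {ε : ℝ} (hε : 0 < ε) : ∃ c C T0 : ℝ, 0 < c ∧ 0 < C ∧ 2 ≤ T0 ∧
  ∀ (T : ℝ) (n : ℕ), T0 ≤ T → Real.log T / 400 ≤ n → (n : ℝ) ≤ K0 * Real.log T → ∀ S : Finset ℂ,
  (∀ s ∈ S, iteratedDeriv n F s = 0 ∧ T < s.im ∧ s.im ≤ 2 * T ∧ ¬ Fol F n (Real.log T / 2) ε s) →
  ∑ s ∈ S, (analyticOrderNatAt (iteratedDeriv n F) s : ℝ) ≤ C * T * Real.exp (-(c * n)) * Real.log T := by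
  classical
  have hB := hDD.B_ge
  obtain ⟨η', n1, hη', hn1, hfol⟩ := fol_of_loc hDD.diff h7 sb1a sb1b hgap hε
  obtain ⟨J, hJ⟩ : ∃ J : ℕ, 40 * B < 2 ^ J := pow_unbounded_of_one_lt _ (by norm_num)
  obtain ⟨X, hX⟩ : ∃ X : ℝ, X = 2 ^ J * (2 * K0) := ⟨_, rfl⟩
  have h2J : (1 : ℝ) ≤ 2 ^ J := one_le_pow₀ (by norm_num)
  have hcX : (1 / 200 : ℝ) ≤ X := by
    rw [hX]
    nlinarith
  obtain ⟨R, ε0, η, T1, hR, hε0, hη, hT1, Htop⟩ := nn_top hHD (c := 1 / 200) (X := X) (by norm_num) hcX hη'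
  obtain ⟨c3, C3, T3, hc3, hC3, hT3, Hvol⟩ := hDD.top R ε0 η hR hε0 hη
  obtain ⟨C5, T5, hC5, hT5, hunit⟩ := h5 (2 * K0) (by linarith)
  refine ⟨c3 / K0, 80000 * C5 * C3, max (max T1 T3) (max (2 * T5) (Real.exp (400 * n1 + 10))), by positivity,
    by positivity, ?_, ?_⟩
  · exact hT1.trans ((le_max_left _ _).trans (le_max_left _ _))
  intro T n hT hn hnK S hS
  have hTT1 : T1 ≤ T := ((le_max_left _ _).trans (le_max_left _ _)).trans hT
  have hTT3 : T3 ≤ T := ((le_max_right _ _).trans (le_max_left _ _)).trans hT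
  have hTT5 : 2 * T5 ≤ T := ((le_max_left _ _).trans (le_max_right _ _)).trans hT
  have hTe : Real.exp (400 * n1 + 10) ≤ T := ((le_max_right _ _).trans (le_max_right _ _)).trans hT
  have hT2 : 2 ≤ T := hT1.trans hTT1
  have hT0 : 0 < T := by linarith
  obtain ⟨L, hL⟩ : ∃ L : ℝ, L = Real.log T := ⟨_, rfl⟩
  rw [← hL] at hn hnK
  have hLe : 400 * (n1 : ℝ) + 10 ≤ L := by
    rw [hL, Real.le_log_iff_exp_le hT0]
    exact hTe
  have hn1' : (800 : ℝ) ≤ n1 := by exact_mod_cast hn1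
  have hL0 : 0 < L := by linarith
  have hnn1 : n1 ≤ n := by
    have : (n1 : ℝ) ≤ n := by linarith
    exact_mod_cast this
  have hn0 : (0 : ℝ) < n := by linarith
  have hlog2 : Real.log 2 ≤ 1 := by
    have := Real.log_le_sub_one_of_pos (show (0 : ℝ) < 2 by norm_num)
    linarith
  have hloghalf : ∀ x : ℝ, T / 2 ≤ x → (n : ℝ) ≤ 2 * K0 * Real.log x := by
    intro x hx
    have h10 : Real.log (T / 2) ≤ Real.log x := Real.log_le_log (by positivity) hx
    have h11 : Real.log (T / 2) = L - Real.log 2 := by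
      rw [Real.log_div hT0.ne' (by norm_num), hL]
    have h12 : L / 2 ≤ Real.log x := by linarith
    calc (n : ℝ) ≤ K0 * L := hnK
      _ = 2 * K0 * (L / 2) := by ring
      _ ≤ _ := by gcongr
  have hlog3 : Real.log (3 * T) ≤ 2 * L := by
    rw [Real.log_mul (by norm_num) hT0.ne', ← hL]
    have : Real.log 3 ≤ 2 := by
      have := Real.log_le_sub_one_of_pos (show (0 : ℝ) < 3 by norm_num)
      linarith
    linarith
  have hr : ∀ j : ℕ, ra T (2 ^ j * n) = 2 ^ j * (2 * n / L) := by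
    intro j
    rw [ra_eq, ← hL]
    ring
  have hr0 : 1 / 200 ≤ 2 * n / L := by
    rw [le_div_iff₀ hL0]
    linarith
  have hr1 : 2 * n / L ≤ 2 * K0 := by
    rw [div_le_iff₀ hL0]
    linarith
  have hrc : ∀ j : ℕ, 1 / 200 ≤ ra T (2 ^ j * n) := by
    intro j
    rw [hr]
    refine hr0.trans ?_
    have : (1 : ℝ) ≤ 2 ^ j := one_le_pow₀ (by norm_num)
    exact le_mul_of_one_le_left (by linarith) this
  have hrX : ∀ j : ℕ, j ≤ J → ra T (2 ^ j * n) ≤ X := by
    intro j hj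
    rw [hr, hX]
    have : (2 : ℝ) ^ j ≤ 2 ^ J := pow_le_pow_right₀ (by norm_num) hj
    have h0 : 0 ≤ 2 * n / L := by linarith
    gcongr
  have hrJ : B ≤ 5 * ra T (2 ^ J * n) := by
    rw [hr]
    have : (2 : ℝ) ^ J * (1 / 200) ≤ 2 ^ J * (2 * n / L) := by gcongr
    linarith
  have hra0 : ra T n = 2 * n / L := by
    have := hr 0
    rw [pow_zero, one_mul, one_mul] at this
    exact this
  -- zeros near a good height are followed
  have hnice : ∀ s ∈ S, ∀ t' : ℝ, |s.im - t'| ≤ 1 / 40000 → ¬ FarOK F R ε0 η t' := by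
    intro s hs t' ht hfar
    obtain ⟨hz, hs1, hs2, hs3⟩ := hS s hs
    have ht2 := abs_le.1 ht
    apply hs3
    refine hfol T n J t' s hT2 hnn1 hz ?_ ?_ ?_
    · rw [hra0]
      refine ht.trans ?_
      linarith
    · intro j hj
      exact Htop T t' (2 ^ j * n) hTT1 (by linarith) (by linarith) (hrc j) (hrX j hj) hfar
    · intro z hz' _
      exact (hst n z hz').trans hrJ
  have h10 := cover (wt F n) (wt_nonneg F n) (fun s => s.im) (1 / 40000) (4 * C5 * L)
      (by norm_num) (by positivity) S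
      {t : ℝ | T / 2 ≤ t ∧ t ≤ 3 * T ∧ ¬ FarOK F R ε0 η t} (C3 * T ^ (1 - c3)) (by positivity)
      (by
        intro s hs x hx
        obtain ⟨hz, hs1, hs2, hs3⟩ := hS s hs
        refine ⟨by linarith [hx.1], by linarith [hx.2], hnice s hs x ?_⟩
        rw [abs_le]
        constructor <;> linarith [hx.1, hx.2])
      (Hvol T hTT3)
      (by
        intro s0 hs0
        obtain ⟨hz0, hs1, hs2, -⟩ := hS s0 hs0
        have h11 := window F (by linarith) hC5 hT5 hunit n (s0.im - 2 * (1 / 40000))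
          (4 * (1 / 40000)) (by linarith) (hloghalf _ (by linarith)) (by positivity)
          (S.filter (fun s' => |s'.im - s0.im| ≤ 2 * (1 / 40000))) (by
            intro s hs
            rw [Finset.mem_filter] at hs
            obtain ⟨hz, hs3, hs4, -⟩ := hS s hs.1
            have := abs_le.1 hs.2
            exact ⟨by linarith, by linarith, hz⟩)
        refine h11.trans ?_
        have h12 : Real.log (s0.im - 2 * (1 / 40000) + 4 * (1 / 40000)) ≤
            2 * L := (Real.log_le_log (by linarith) (by linarith)).trans hlog3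
        have h14 : 0 ≤ Real.log (s0.im - 2 * (1 / 40000) + 4 * (1 / 40000)) :=
          Real.log_nonneg (by linarith)
        calc (4 * (1 / 40000) + 1) * (C5 * Real.log (s0.im - 2 * (1 / 40000) + 4 * (1 / 40000)))
            ≤ 2 * (C5 * (2 * L)) := by
              apply mul_le_mul (by norm_num) (mul_le_mul_of_nonneg_left h12 hC5.le) _ (by norm_num)
              exact mul_nonneg hC5.le h14
          _ = 4 * C5 * L := by ring)
  have h13 : ∑ s ∈ S, (analyticOrderNatAt (iteratedDeriv n F) s : ℝ) = ∑ s ∈ S, wt F n s := rfl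
  rw [h13]
  refine h10.trans ?_
  have h7 : T ^ (1 - c3) = T * Real.exp (-(c3 * L)) := by
    rw [Real.rpow_sub hT0, Real.rpow_one, Real.rpow_def_of_pos hT0, div_eq_mul_inv, ← Real.exp_neg, hL]
    congr 3
    ring
  have h8 : Real.exp (-(c3 * L)) ≤ Real.exp (-(c3 / K0 * n)) := by
    apply Real.exp_le_exp.2
    have h9 : c3 / K0 * n ≤ c3 / K0 * (K0 * L) := by gcongr
    have e : c3 / K0 * (K0 * L) = c3 * L := by field_simp
    linarith
  rw [h7, ← hL]
  calc 4 * C5 * L * (C3 * (T * Real.exp (-(c3 * L)))) / (2 * (1 / 40000)) =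
        80000 * C5 * C3 * T * Real.exp (-(c3 * L)) * L := by ring
    _ ≤ _ := by gcongr

/-- all `n ≤ K0 log T` -/
theorem midk {B K : ℝ} {FT : ℝ → ℂ → ℂ} {h : ℝ → ℝ} (hDD : DD B K F) (hHD : HD B F FT h) (hst : Strip F B)
    (h5 : Unt F) (h7 : PtA F) (sb1a : SB1a) (sb1b : SB1b) (hgap : S_GAPD) (hmid : S_MID F) (K0 : ℝ) :
    S_MIDK F K0 := by
  intro ε hε
  obtain ⟨c1, C1, T1, n1, hc1, hC1, hT1, H1⟩ := hmid ε hε
  obtain ⟨c2, C2, T2, hc2, hC2, hT2, H2⟩ := top hDD hHD hst h5 h7 sb1a sb1b hgap (K0 := max K0 1)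
    (le_max_right _ _) hε
  refine ⟨min c1 c2, C1 + C2, max T1 T2, n1, lt_min hc1 hc2, by positivity, hT1.trans (le_max_left _ _), ?_⟩
  intro T n hT hn hnK S hS
  have hTT1 : T1 ≤ T := (le_max_left _ _).trans hT
  have hTT2 : T2 ≤ T := (le_max_right _ _).trans hT
  have hT0 : 0 < T := by linarith
  have hL0 : 0 ≤ Real.log T := Real.log_nonneg (by linarith)
  have hE0 := Real.exp_pos (-(min c1 c2 * (n : ℝ)))
  rcases le_total (n : ℝ) (Real.log T / 400) with h9 | h9
  · refine (H1 T n hTT1 hn h9 S hS).trans ?_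
    calc C1 * T * Real.exp (-(c1 * n)) * Real.log T
        ≤ C1 * T * Real.exp (-(min c1 c2 * n)) * Real.log T := by
          gcongr
          exact min_le_left _ _
      _ ≤ _ := by
          gcongr
          linarith
  · refine (H2 T n hTT2 h9 (hnK.trans ?_) S hS).trans ?_
    · gcongr
      exact le_max_left _ _
    calc C2 * T * Real.exp (-(c2 * n)) * Real.log T
        ≤ C2 * T * Real.exp (-(min c1 c2 * n)) * Real.log T := by
          gcongr
          exact min_le_right _ _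
      _ ≤ _ := by
          gcongr
          linarith

end Pool.Agent.P8H15.DS
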