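import Pool.Agent.P8H15.DS.Gap
import Pool.Agent.P8H15.DS.Top
import Pool.Agent.P8H15.DS.Hid
import Pool.Agent.P8H15.DS.Cnt
import Pool.Agent.P8H87.DS.Mid
import Pool.Agent.P8H15.LZ.Hd
import Pool.Agent.Y771.NF.FinD

set_option autoImplicit false

/-!
# Project DS: the spacing of the zeros of the derivatives of completed L-functions
-/

namespace Pool.Agent.P8H15.DS

open Complex Filter Topology MeasureTheory Set Polynomial
open scoped ComplexConjugate
open Pool.Agent.H24R2.DZ (ra NN SCount SB1a SB1b)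
open Pool.Agent.Y671.LD
open Pool.Agent.Y671.GL
open Pool.Agent.P8H75.DS (iter_div)

/-- the scaled function satisfies the axioms `DD` (the first part of the proof of `Pool.Agent.Y671.GL.ddx`) -/
theorem dd_of {κ : ℝ} {H X Z : ℂ → ℂ} (hκ : 1 / 2 ≤ κ) (hκ2 : κ ≤ 10 ^ 40) (hG : GG κ H X Z) (hA : AppX X)
    (hL : LowX X) : ∃ K : ℝ, DD κ K (fun z => X (z / ((2 * κ : ℝ) : ℂ))) := by
  have hκ0 : 0 < κ := by linarith
  have hb : 0 < 2 * κ := by positivity
  have hC := hG.cg.cf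
  have hXd := hC.diff
  set F : ℂ → ℂ := fun z => X (z / (2 * κ : ℝ)) with hF
  have hFd : Differentiable ℂ F := hXd.comp (by fun_prop)
  obtain ⟨h1, h2, h3, h4, h5, h6, h7⟩ := Pool.Agent.Y412.GL.HSZ.hsz κ H X Z hκ hG.cg F _
    (by rw [hF]; push_cast; rfl) rfl
  obtain ⟨K0, hK0, N0, hlow⟩ := hL
  have happ : App κ F := app_scale hb (by ring) hA
  obtain ⟨K1, T1, hT1, h6'⟩ := h6 (10 * κ)
  have hne := iter_ne hFd (10 * κ) K1 T1 (fun t ht => h6' t ((10 * κ : ℝ) : ℂ) ht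
    (by rw [Complex.norm_real, Real.norm_eq_abs, abs_of_pos (by positivity)])
    (by rw [Complex.ofReal_re]))
  have hst : Strip F κ := strip_of_app' hFd happ hne
  refine ⟨max 25 K0, hκ, le_max_left _ _, hFd, ?_, happ, ⟨_, h1, h7⟩, ?_, ?_, good_scale hκ hκ2 hG.good,
    top_scale hXd hκ hG.top⟩
  · intro z
    exact symm_scale hC.symm z
  · intro n hn
    have h8 := hst n _ hn
    have h9 : ((10 * κ : ℂ)).re = 10 * κ := by
      simp
    rw [h9, abs_of_pos (by positivity)] at h8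
    linarith
  · refine ⟨N0, ?_⟩
    intro n hn s hs hbad
    rw [hF, bad_scale hb hXd] at hbad
    refine hlow n hn _ ?_ hbad
    rw [Complex.div_ofReal_im, abs_div, abs_of_pos hb]
    have h8 : |s.im| / (2 * κ) ≤ |s.im| := div_le_self (abs_nonneg _) (by linarith)
    have h9 : Real.exp (n / max 25 K0) ≤ Real.exp (n / K0) := by
      apply Real.exp_le_exp.2
      exact div_le_div_of_nonneg_left (by positivity) hK0 (le_max_right _ _)
    linarith

/-- `S_HID` for completed L-functions -/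
theorem hid_all {κ : ℝ} {H X Z : ℂ → ℂ} (hκ : 1 / 2 ≤ κ) (hκ5 : κ ≤ 5) (hG : GG κ H X Z)
    (hst : ∀ s : ℂ, X s = 0 → |s.re| ≤ 1 / 2) (hA : AppX X) (hL : LowX X) (hH : HugeX X)
    {δ : ℝ} (hδ : 0 < δ) : S_HID X κ δ := by
  have hκ0 : 0 < κ := by linarith
  have hb : 0 < 2 * κ := by positivity
  have hbc : ((2 * κ : ℝ) : ℂ) ≠ 0 := by exact_mod_cast hb.ne'
  have hXd := hG.cg.cf.diff
  obtain ⟨K, hD⟩ := dd_of hκ (hκ5.trans (by norm_num)) hG hA hL
  obtain ⟨FT, hh, hHD⟩ := Pool.Agent.P8H15.LZ.hd_of hκ hκ5 hG hst hH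
  have sb2 := Pool.Agent.W347.SD.sb2
  have hS : Strip (fun z => X (z / ((2 * κ : ℝ) : ℂ))) κ := strip_of_app hD.diff hD.app _ hD.ne
  have hcir := cir_of_app hκ0 hD.diff hD.symm hD.app _ hD.ne
  have hunit := unit_of hκ0 hD.diff hD.size hS sb2
  have hPA := pta hD.diff (Pool.Agent.W368.SD.sb3 sb2)
  have hmid := Pool.Agent.P8H87.DS.mid2 hD (Pool.Agent.W32.SD.scount sb2) hunit hS hcir hPA
    Pool.Agent.W571.SD.sb1a Pool.Agent.W571.SD.sb1b gapd
  have hmidk := midk hD hHD hS hunit hPA Pool.Agent.W571.SD.sb1a Pool.Agent.W571.SD.sb1b gapd hmid (2 / δ)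
  refine hid_of_hit hδ ?_ (hit_scale hκ hXd (hit_of hδ hunit hmidk))
  intro n T
  refine fin_strip (Pool.Agent.H24R2.JP.ParCircAux.diff_iter hXd n) ?_ 0 T
  intro s hs
  have h1 : iteratedDeriv n (fun z => X (z / ((2 * κ : ℝ) : ℂ))) (((2 * κ : ℝ) : ℂ) * s) = 0 := by
    rw [iter_div hXd, mul_div_cancel_left₀ _ hbc, hs, mul_zero]
  have h2 := hS n _ h1
  rw [Complex.re_ofReal_mul, abs_mul, abs_of_pos hb] at h2
  by_contra hcon
  push Not at hcon
  have : 2 * κ * (1 / 2) < 2 * κ * |s.re| := mul_lt_mul_of_pos_left hcon hb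
  linarith

open UpperHalfPlane hiding I
open MatrixGroups CongruenceSubgroup
open Pool.Agent.Y771.NF

variable {N : ℕ} [NeZero N] {k : ℕ} {f : CuspForm (Gamma0 N : Subgroup (GL (Fin 2) ℝ)) (k : ℤ)} {w : ℝ}

/-- **The spacing of the zeros of the derivatives, for newforms.** -/
theorem spacing (hk : 1 ≤ k) (hf : W388.IsNewf N k f w) (G : ℂ → ℂ)
    (hG : ∀ z, G z = Lam f ((k : ℂ) / 2 + I * z)) :
    (∀ (n : ℕ) (T : ℝ), (Cnt.ZerD G n T).Finite) ∧
    ∀ ε δ : ℝ, 0 < ε → 0 < δ → ∃ c C : ℝ, 0 < c ∧ 0 < C ∧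
      (∀ (n : ℕ) (T : ℝ), (Cnt.num (iteratedDeriv n G) (ExcS G ε δ n T) : ℝ) ≤
        C * Real.exp (-(c * n)) * Cnt.num (iteratedDeriv n G) (Cnt.ZerD G n T)) ∧
      (∀ (n : ℕ) (T : ℝ), 2 ≤ T → (Cnt.num (iteratedDeriv n G) (ExcS G ε δ n T) : ℝ) ≤
        C * Real.exp (-(c * n)) * T * Real.log T) := by
  obtain ⟨u, H, Z, hu, hGG, hst, hA, hL, hH⟩ := all_of hk hf
  refine main_s (X := Xf f u) (inv_ne_zero hu) (fun z => ?_) hGG.cg.cf.diff hA
    (ddx_all 1 H _ Z (by norm_num) (by norm_num) hGG hA hL) hL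
    (Pool.Agent.Y423.GL.totd 1 H _ Z (by norm_num) hGG.cg hA)
    (fun δ hδ => hid_all (by norm_num) (by norm_num) hGG hst hA hL hH hδ)
  rw [hG, Xf, inv_mul_cancel_left₀ hu]

end Pool.Agent.P8H15.DS
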