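import Pool.Agent.P8H15.DS.Stm
import Pool.Agent.P8H15.DS.RTe
import Pool.Agent.W571.SD.SB1
import Pool.Agent.R838.CR.Real1

set_option autoImplicit false

/-!
# Package GAPD: the next zero of the derivative, local form
-/

namespace Pool.Agent.P8H15.DS

open Complex Filter Topology MeasureTheory Set
open Pool.Agent.H24R2.DZ (hc NN half)
open Pool.Agent.H986R2.K4 (QQ lapQ)
open Pool.Agent.W571.SD (iter_shift mid_bound nn_grow)

/-- a function which rotates with almost constant speed -/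
lemma rot_core {Φ D : ℝ → ℂ} {a ε : ℝ} (ha : 0 < a) (hε : 0 < ε) (hε1 : ε ≤ 1 / 2)
    (hΦ : ∀ h : ℝ, 0 ≤ h → a * h ≤ 4 → HasDerivAt Φ (a * I * D h) h)
    (hD : ∀ h : ℝ, 0 ≤ h → a * h ≤ 4 → ‖D h - Φ h‖ ≤ ε / 64 * ‖Φ h‖)
    {h : ℝ} (h0 : 0 ≤ h) (h1 : a * h ≤ 4) :
    ‖Φ h - cexp (((a * h : ℝ) : ℂ) * I) * Φ 0‖ ≤ ε / 8 * ‖Φ 0‖ := by
  obtain ⟨ε1, hε1'⟩ : ∃ ε1 : ℝ, ε1 = ε / 64 := ⟨_, rfl⟩
  have hε10 : 0 < ε1 := by rw [hε1']; positivity
  rw [← hε1'] at hD
  have hK : 0 < a * ε1 := by positivity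
  obtain ⟨g, hg⟩ : ∃ g : ℝ → ℂ, g = fun x => cexp (-(((a * x : ℝ) : ℂ) * I)) * Φ x - Φ 0 := ⟨_, rfl⟩
  have hle : ∀ x ∈ Icc (0 : ℝ) h, a * x ≤ 4 := fun x hx =>
    (mul_le_mul_of_nonneg_left hx.2 ha.le).trans h1
  have hexp : ∀ x : ℝ, HasDerivAt (fun x : ℝ => cexp (-(((a * x : ℝ) : ℂ) * I)))
      (cexp (-(((a * x : ℝ) : ℂ) * I)) * (-((a : ℂ) * I))) x := by
    intro x
    have d0 : HasDerivAt (fun x : ℝ => ((a * x : ℝ) : ℂ)) ((a : ℂ)) x := by
      have := ((hasDerivAt_id x).const_mul a).ofReal_comp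
      simpa using this
    exact ((d0.mul_const I).fun_neg).cexp
  have hgd : ∀ x ∈ Icc (0 : ℝ) h, HasDerivAt g
      (cexp (-(((a * x : ℝ) : ℂ) * I)) * (a * I * (D x - Φ x))) x := by
    intro x hx
    rw [hg]
    refine (((hexp x).mul (hΦ x hx.1 (hle x hx))).sub_const (Φ 0)).congr_deriv ?_
    ring
  have hnorm : ∀ x : ℝ, ‖cexp (-(((a * x : ℝ) : ℂ) * I))‖ = 1 := by
    intro x
    have : -(((a * x : ℝ) : ℂ) * I) = ((-(a * x) : ℝ) : ℂ) * I := by push_cast; ring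
    rw [this, Complex.norm_exp_ofReal_mul_I]
  have hgn : ∀ x : ℝ, ‖Φ x‖ ≤ ‖g x‖ + ‖Φ 0‖ := by
    intro x
    have e : ‖Φ x‖ = ‖cexp (-(((a * x : ℝ) : ℂ) * I)) * Φ x‖ := by rw [norm_mul, hnorm, one_mul]
    have e2 : cexp (-(((a * x : ℝ) : ℂ) * I)) * Φ x = g x + Φ 0 := by rw [hg]; ring
    rw [e, e2]
    exact norm_add_le _ _
  have key := norm_le_gronwallBound_of_norm_deriv_right_le (f := g)
    (f' := fun x => cexp (-(((a * x : ℝ) : ℂ) * I)) * (a * I * (D x - Φ x))) (δ := 0)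
    (K := a * ε1) (ε := a * ε1 * ‖Φ 0‖) (a := 0) (b := h)
    (fun x hx => (hgd x hx).continuousAt.continuousWithinAt)
    (fun x hx => (hgd x ⟨hx.1, hx.2.le⟩).hasDerivWithinAt)
    (by rw [hg]; simp)
    (by
      intro x hx
      have hx' : x ∈ Icc (0 : ℝ) h := ⟨hx.1, hx.2.le⟩
      rw [norm_mul, hnorm, one_mul, norm_mul, norm_mul, Complex.norm_I, mul_one, Complex.norm_real,
        Real.norm_eq_abs, abs_of_pos ha]
      calc a * ‖D x - Φ x‖ ≤ a * (ε1 * ‖Φ x‖) := by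
            gcongr
            exact hD x hx'.1 (hle x hx')
        _ ≤ a * (ε1 * (‖g x‖ + ‖Φ 0‖)) := by
            gcongr
            exact hgn x
        _ = _ := by ring) h ⟨h0, le_rfl⟩
  rw [gronwallBound_of_K_ne_0 hK.ne', sub_zero] at key
  simp only [zero_mul, zero_add] at key
  have e1 : a * ε1 * ‖Φ 0‖ / (a * ε1) = ‖Φ 0‖ := by
    field_simp
  rw [e1] at key
  have e2 : Real.exp (a * ε1 * h) - 1 ≤ ε / 8 := by
    have f1 : a * ε1 * h ≤ 4 * ε1 := by nlinarith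
    have f2 : 0 ≤ a * ε1 * h := by positivity
    have f3 := Real.abs_exp_sub_one_le (x := a * ε1 * h) (by
      rw [abs_of_nonneg f2]
      linarith)
    rw [abs_of_nonneg f2] at f3
    have f4 := (abs_le.1 f3).2
    linarith
  have e3 : ‖Φ h - cexp (((a * h : ℝ) : ℂ) * I) * Φ 0‖ = ‖g h‖ := by
    have : Φ h - cexp (((a * h : ℝ) : ℂ) * I) * Φ 0 = cexp (((a * h : ℝ) : ℂ) * I) * g h := by
      rw [hg]
      simp only
      rw [mul_sub, ← mul_assoc, ← Complex.exp_add, add_neg_cancel, Complex.exp_zero, one_mul]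
    rw [this, norm_mul, Complex.norm_exp_ofReal_mul_I, one_mul]
  rw [e3]
  refine key.trans ?_
  calc ‖Φ 0‖ * (Real.exp (a * ε1 * h) - 1) ≤ ‖Φ 0‖ * (ε / 8) := by gcongr
    _ = _ := by ring

/-- the first zero of the real part -/
lemma rot_zero {Φ D : ℝ → ℂ} {a ε : ℝ} (ha : 0 < a) (hε : 0 < ε) (hε1 : ε ≤ 1 / 2)
    (hΦ : ∀ h : ℝ, 0 ≤ h → a * h ≤ 4 → HasDerivAt Φ (a * I * D h) h)
    (hD : ∀ h : ℝ, 0 ≤ h → a * h ≤ 4 → ‖D h - Φ h‖ ≤ ε / 64 * ‖Φ h‖)
    (h0 : Φ 0 ≠ 0) (hre : (Φ 0).re = 0) :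
    ∃ h : ℝ, 0 < h ∧ |a * h - Real.pi| ≤ ε ∧ (Φ h).re = 0 ∧
      ∀ h' : ℝ, 0 < h' → h' < h → (Φ h').re ≠ 0 := by
  obtain ⟨b, hb⟩ : ∃ b : ℝ, b = (Φ 0).im := ⟨_, rfl⟩
  have hJ : Φ 0 = (b : ℂ) * I := by
    apply Complex.ext
    · rw [hre]; simp
    · rw [hb]; simp
  have hb0 : b ≠ 0 := by
    rintro rfl
    apply h0
    rw [hJ]
    simp
  have hbn : ‖Φ 0‖ = |b| := by
    rw [hJ, norm_mul, Complex.norm_I, mul_one, Complex.norm_real, Real.norm_eq_abs]
  have c1 : 0 < |b| := abs_pos.2 hb0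
  have hrotn : ∀ h : ℝ, 0 ≤ h → a * h ≤ 4 →
      ‖Φ h - cexp (((a * h : ℝ) : ℂ) * I) * ((b : ℂ) * I)‖ ≤ ε / 8 * |b| := by
    intro h h0 h1
    have := rot_core ha hε hε1 hΦ hD h0 h1
    rwa [hbn, hJ] at this
  have hcre : ∀ x : ℝ, (cexp ((x : ℂ) * I) * ((b : ℂ) * I)).re = -(b * Real.sin x) := by
    intro x
    rw [Complex.mul_re, Complex.exp_ofReal_mul_I_re, Complex.exp_ofReal_mul_I_im]
    simp
    ring
  have hcim : ∀ x : ℝ, (cexp ((x : ℂ) * I) * ((b : ℂ) * I)).im = b * Real.cos x := by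
    intro x
    rw [Complex.mul_im, Complex.exp_ofReal_mul_I_re, Complex.exp_ofReal_mul_I_im]
    simp
    ring
  obtain ⟨h, hh0, hh1, hh2, hh3⟩ := Pool.Agent.R838.CR.first_zero (g := fun h : ℝ => -(Φ h).re / b)
    (k := fun h : ℝ => (D h).im / b) (a := a) (ε := ε) (ε1 := ε / 8) ha hε hε1
    le_rfl (by simp [hre]) (by
      intro h h0 h1
      have d1 := hΦ h h0 h1
      have d3 : HasDerivAt (fun h : ℝ => (Φ h).re) (a * I * D h).re h :=
        (Complex.reCLM.hasFDerivAt.comp_hasDerivAt h d1)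
      refine (d3.neg.div_const b).congr_deriv ?_
      simp
      ring) (by
      intro h h0 h1
      have d1 := (Complex.abs_re_le_norm _).trans (hrotn h h0 h1)
      rw [Complex.sub_re, hcre] at d1
      have d2 : -(Φ h).re / b - Real.sin (a * h) =
          -((Φ h).re - -(b * Real.sin (a * h))) / b := by
        field_simp
        ring
      rw [d2, abs_div, abs_neg, div_le_iff₀ c1]
      exact d1) (by
      intro h h0 h1
      have d0 := hrotn h h0 h1
      have d1 := (Complex.abs_im_le_norm _).trans d0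
      rw [Complex.sub_im, hcim] at d1
      have d3 := (Complex.abs_im_le_norm _).trans (hD h h0 h1)
      rw [Complex.sub_im] at d3
      have d4 : ‖Φ h‖ ≤ 2 * |b| := by
        have d5 := norm_le_norm_add_norm_sub (cexp (((a * h : ℝ) : ℂ) * I) * ((b : ℂ) * I)) (Φ h)
        have d6 : ‖cexp (((a * h : ℝ) : ℂ) * I) * ((b : ℂ) * I)‖ = |b| := by
          rw [norm_mul, Complex.norm_exp_ofReal_mul_I, one_mul, norm_mul, Complex.norm_I, mul_one,
            Complex.norm_real, Real.norm_eq_abs]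
        rw [d6, norm_sub_rev] at d5
        have d7 : ε / 8 * |b| ≤ 1 * |b| := mul_le_mul_of_nonneg_right (by linarith) c1.le
        linarith
      have d5 : ε / 64 * ‖Φ h‖ ≤ ε / 64 * (2 * |b|) := mul_le_mul_of_nonneg_left d4 (by positivity)
      have d6 : (D h).im / b - Real.cos (a * h) =
          (((D h).im - (Φ h).im) + ((Φ h).im - b * Real.cos (a * h))) / b := by
        field_simp
        ring
      rw [d6, abs_div, div_le_iff₀ c1]
      refine (abs_add_le _ _).trans ?_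
      have d8 : 0 ≤ ε * |b| := by positivity
      linarith)
  refine ⟨h, hh0, hh1, ?_, ?_⟩
  · rcases div_eq_zero_iff.1 hh2 with h6 | h6
    · linarith
    · exact absurd h6 hb0
  · intro h' h0' hlt hcon
    apply hh3 h' h0' hlt
    simp [hcon]

/-- the derivative on the line -/
lemma axis {F : ℂ → ℂ} (hF : Differentiable ℂ F)
    (hs : ∀ z : ℂ, F (-((starRingEnd ℂ) z)) = (starRingEnd ℂ) (F z)) (n : ℕ) :
    ∃ ω : ℂ, ‖ω‖ = 1 ∧ ∀ h : ℝ, |h| < 1 →
      (iteratedDeriv n F (h * I) = 0 ↔ (ω * hc F (n + 1) (h * I)).re = 0) := by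
  have hn : ∀ h : ℝ, |h| < 1 → ‖(h : ℂ) * I‖ < 1 := by
    intro h hh
    rwa [norm_mul, Complex.norm_I, mul_one, Complex.norm_real, Real.norm_eq_abs]
  have hfac : (n.factorial : ℂ) ≠ 0 := by exact_mod_cast n.factorial_ne_zero
  have hconj : ∀ h : ℝ, -((starRingEnd ℂ) ((h : ℂ) * I)) = (h : ℂ) * I := by
    intro h
    rw [map_mul, Complex.conj_I, Complex.conj_ofReal]
    ring
  have hz : ∀ h : ℝ, |h| < 1 → (iteratedDeriv n F (h * I) = 0 ↔
      hc F (n + 1) (h * I) + (-1) ^ n * (starRingEnd ℂ) (hc F (n + 1) (h * I)) = 0) := by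
    intro h hh
    have h1 := (half F n ((h : ℂ) * I) hF hs (hn h hh)).1
    rw [hconj] at h1
    rw [← h1, div_eq_zero_iff]
    simp [hfac]
  rcases Nat.even_or_odd n with he | ho
  · refine ⟨1, norm_one, fun h hh => ?_⟩
    rw [hz h hh, he.neg_one_pow, one_mul, one_mul, Complex.add_conj]
    norm_cast
    simp
  · refine ⟨-I, by simp, fun h hh => ?_⟩
    rw [hz h hh, ho.neg_one_pow, neg_one_mul, ← sub_eq_add_neg, Complex.sub_conj]
    have : (-I * hc F (n + 1) (h * I)).re = (hc F (n + 1) (h * I)).im := by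
      simp
    rw [this]
    constructor
    · intro h0
      rcases mul_eq_zero.1 h0 with h1 | h1
      · have : 2 * (hc F (n + 1) (h * I)).im = 0 := by exact_mod_cast h1
        linarith
      · exact absurd h1 Complex.I_ne_zero
    · intro h0
      rw [h0]
      simp

/-- the shifted function is in the situation `QQ`, with arbitrary small `κ` -/
theorem toQQ2 {n : ℕ} {κ η η' : ℝ} {F : ℂ → ℂ} (hκ : 0 < κ) (hκ1 : κ ≤ 1 / 2) (hη : 0 ≤ η)
    (hη1 : η ≤ 1 / 200) (hηκ : 40 * η ≤ κ) (hη' : η ≤ η')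
    (hN : NN n η F) (y : ℝ) (hy : |y| ≤ 1 / 100) :
    QQ κ 18 n η' (fun z => F (z + (y : ℂ) * I)) := by
  have hn0 : (0 : ℝ) ≤ n := Nat.cast_nonneg n
  have hyI : ‖(y : ℂ) * I‖ ≤ 1 / 100 := by
    rw [norm_mul, Complex.norm_I, mul_one, Complex.norm_real, Real.norm_eq_abs]; exact hy
  have hre : ∀ z : ℂ, (z + (y : ℂ) * I).re = z.re := by
    intro z; simp
  have hcj : ∀ z : ℂ, -((starRingEnd ℂ) z) + (y : ℂ) * I = -((starRingEnd ℂ) (z + (y : ℂ) * I)) := by
    intro z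
    rw [map_add, map_mul, Complex.conj_I, Complex.conj_ofReal]; ring
  refine ⟨?_, ?_, ?_, ?_⟩
  · exact hN.diff.comp (differentiable_id.add_const _)
  · intro z
    show F (-((starRingEnd ℂ) z) + (y : ℂ) * I) = (starRingEnd ℂ) (F (z + (y : ℂ) * I))
    rw [hcj, hN.symm]
  · intro z h1 h2
    have h3 : ‖z + (y : ℂ) * I‖ ≤ 20 := (norm_add_le _ _).trans (by linarith)
    have h4 := hN.far (z + (y : ℂ) * I) (by rw [hre]; linarith) h3
    refine ⟨h4.1, ?_⟩
    have h5 : logDeriv (fun z => F (z + (y : ℂ) * I)) z = logDeriv F (z + (y : ℂ) * I) := by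
      rw [logDeriv_apply, logDeriv_apply, deriv_comp_add_const]
    rw [h5]
    have h6 := h4.2
    push_cast at h6
    exact h6.trans (mul_le_mul_of_nonneg_right hη' hn0)
  · have key : ∀ z : ℂ, 1 / 2 ≤ z.re → z.re ≤ 1 - κ → ‖z‖ ≤ 18 →
        ‖F (z + (y : ℂ) * I)‖ ≤ ‖F (1 + (y : ℂ) * I)‖ * Real.exp (-(κ / 2 * n)) := by
      intro z h1 h2 h3
      have h4 := nn_grow hN (a := 1 + (y : ℂ) * I) (b := z + (y : ℂ) * I)
        (by rw [hre]; norm_num) (by rw [hre]; linarith)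
        ((norm_add_le _ _).trans (by rw [norm_one]; linarith))
        ((norm_add_le _ _).trans (by linarith))
      refine h4.trans (mul_le_mul_of_nonneg_left (Real.exp_le_exp.2 ?_) (norm_nonneg _))
      have e : z + (y : ℂ) * I - (1 + (y : ℂ) * I) = z - 1 := by ring
      rw [e, Complex.sub_re, Complex.one_re]
      have h6 : ‖z - 1‖ ≤ 20 := by
        refine (norm_sub_le _ _).trans ?_
        rw [norm_one]; linarith
      have h7 : (n : ℝ) * (z.re - 1) ≤ n * (-κ) := mul_le_mul_of_nonneg_left (by linarith) hn0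
      have h8 : η * n * ‖z - 1‖ ≤ κ / 40 * n * 20 := by
        apply mul_le_mul _ h6 (norm_nonneg _) (by positivity)
        exact mul_le_mul_of_nonneg_right (by linarith) hn0
      linarith
    intro z h1 h2
    show ‖F (z + (y : ℂ) * I)‖ ≤ ‖F (1 + (y : ℂ) * I)‖ * Real.exp (-(κ / 2 * n))
    rcases le_total |z.re| (1 / 2) with hh | hh
    · have h3 := mid_bound hη hη1 hN (z + (y : ℂ) * I) (by rw [hre]; linarith)
        ((norm_add_le _ _).trans (by linarith))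
      have h4 := nn_grow hN (a := 1 + (y : ℂ) * I) (b := 1) (by rw [hre]; norm_num) (by norm_num)
        ((norm_add_le _ _).trans (by rw [norm_one]; linarith)) (by simp)
      have h5 : (1 - (1 + (y : ℂ) * I)).re = 0 := by simp
      have h6 : ‖(1 : ℂ) - (1 + (y : ℂ) * I)‖ ≤ 1 / 100 := by
        have : (1 : ℂ) - (1 + (y : ℂ) * I) = -((y : ℂ) * I) := by ring
        rw [this, norm_neg]; exact hyI
      rw [h5, mul_zero, zero_add] at h4
      have h7 : η * n * ‖(1 : ℂ) - (1 + (y : ℂ) * I)‖ ≤ 1 / 200 * n * (1 / 100) := by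
        apply mul_le_mul _ h6 (norm_nonneg _) (by positivity)
        exact mul_le_mul_of_nonneg_right hη1 hn0
      calc ‖F (z + (y : ℂ) * I)‖ ≤ ‖F 1‖ * Real.exp (-(2 / 5 * n)) := h3
        _ ≤ (‖F (1 + (y : ℂ) * I)‖ * Real.exp (1 / 200 * n * (1 / 100))) * Real.exp (-(2 / 5 * n)) := by
            apply mul_le_mul_of_nonneg_right _ (Real.exp_pos _).le
            exact h4.trans (mul_le_mul_of_nonneg_left (Real.exp_le_exp.2 h7) (norm_nonneg _))
        _ = ‖F (1 + (y : ℂ) * I)‖ * Real.exp (1 / 200 * n * (1 / 100) + -(2 / 5 * n)) := by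
            rw [mul_assoc, ← Real.exp_add]
        _ ≤ _ := by
            apply mul_le_mul_of_nonneg_left (Real.exp_le_exp.2 _) (norm_nonneg _)
            nlinarith
    · rcases le_total 0 z.re with hs | hs
      · rw [abs_of_nonneg hs] at hh h1
        exact key z hh h1 h2
      · rw [abs_of_nonpos hs] at hh h1
        have h5 := key (-((starRingEnd ℂ) z)) (by simpa using hh) (by simpa using h1)
          (by rw [norm_neg, RCLike.norm_conj]; exact h2)
        rw [hcj, hN.symm, RCLike.norm_conj] at h5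
        exact h5

/-- GAPD -/
theorem gapd : S_GAPD := by
  intro ε hε
  obtain ⟨e, he⟩ : ∃ e : ℝ, e = min (ε / 2) (1 / 2) := ⟨_, rfl⟩
  have he0 : 0 < e := by rw [he]; exact lt_min (by linarith) (by norm_num)
  have he1 : e ≤ 1 / 2 := by rw [he]; exact min_le_right _ _
  have heε : e ≤ ε / 2 := by rw [he]; exact min_le_left _ _
  obtain ⟨d, η0, n0, hd0, hd, hη0, hn0, H⟩ := rte lapQ (ε := e / 64) (by positivity)
  obtain ⟨η, hη⟩ : ∃ η : ℝ, η = min η0 (min (1 / 200) (d / 40)) := ⟨_, rfl⟩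
  have hηp : 0 < η := by rw [hη]; exact lt_min hη0 (lt_min (by norm_num) (by positivity))
  have hη1 : η ≤ η0 := by rw [hη]; exact min_le_left _ _
  have hη2 : η ≤ 1 / 200 := by rw [hη]; exact (min_le_right _ _).trans (min_le_left _ _)
  have hη3 : η ≤ d / 40 := by rw [hη]; exact (min_le_right _ _).trans (min_le_right _ _)
  obtain ⟨n1, hn1⟩ := exists_nat_ge (40 / d ^ 3)
  obtain ⟨n2, hn2⟩ := exists_nat_ge (8 / ε)
  refine ⟨η, max n0 (max n1 (max n2 8)), hηp, hn0.trans (le_max_left _ _), ?_⟩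
  intro n F hn hN y hy hz
  have hnn0 : n0 ≤ n := (le_max_left _ _).trans hn
  have hnn1 : n1 ≤ n := ((le_max_left _ _).trans (le_max_right _ _)).trans hn
  have hnn2 : n2 ≤ n := (((le_max_left _ _).trans (le_max_right _ _)).trans (le_max_right _ _)).trans hn
  have hnn3 : 8 ≤ n := (((le_max_right _ _).trans (le_max_right _ _)).trans (le_max_right _ _)).trans hn
  have hn1' : 40 / d ^ 3 ≤ n := hn1.trans (by exact_mod_cast hnn1)
  have hn2' : 8 / ε ≤ n := hn2.trans (by exact_mod_cast hnn2)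
  have hn3' : (8 : ℝ) ≤ n := by exact_mod_cast hnn3
  have hd3 : 0 < d ^ 3 := by positivity
  rw [div_le_iff₀ hd3] at hn1'
  rw [div_le_iff₀ hε] at hn2'
  have hQ := toQQ2 (κ := 10 * d) (η' := η0) (by positivity) (by linarith) hηp.le hη2 (by linarith) hη1
    hN y hy
  obtain ⟨F1, hF1⟩ : ∃ F1 : ℂ → ℂ, F1 = fun z => F (z + (y : ℂ) * I) := ⟨_, rfl⟩
  rw [← hF1] at hQ
  have HH := H n F1 hnn0 hQ
  obtain ⟨ω, hω, hax⟩ := axis hQ.diff hQ.symm n
  have hshift : ∀ h : ℝ, iteratedDeriv n F1 (h * I) = iteratedDeriv n F ((y + h : ℝ) * I) := by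
    intro h
    rw [hF1, iter_shift]
    congr 1
    push_cast
    ring
  obtain ⟨a, haa⟩ : ∃ a : ℝ, a = n + 1 := ⟨_, rfl⟩
  have ha : 0 < a := by rw [haa]; positivity
  have hsm : ∀ h : ℝ, 0 ≤ h → a * h ≤ 4 → h ≤ d ^ 3 / 10 := by
    intro h h0 h1
    have h2 : (n : ℝ) * h ≤ 4 := by
      rw [haa] at h1
      nlinarith
    by_contra hc
    push Not at hc
    have h3 : (n : ℝ) * (d ^ 3 / 10) < n * h := mul_lt_mul_of_pos_left hc (by linarith)
    linarith
  have hd31 : d ^ 3 / 10 ≤ 1 / 2 := by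
    have : d ^ 3 ≤ 1 ^ 3 := pow_le_pow_left₀ hd0.le (by linarith) 3
    linarith
  have hnI : ∀ h : ℝ, 0 ≤ h → a * h ≤ 4 → ‖(h : ℂ) * I‖ ≤ d ^ 3 / 10 := by
    intro h h0 h1
    rw [norm_mul, Complex.norm_I, mul_one, Complex.norm_real, Real.norm_eq_abs, abs_of_nonneg h0]
    exact hsm h h0 h1
  obtain ⟨Φ, hΦ⟩ : ∃ Φ : ℝ → ℂ, Φ = fun h : ℝ => ω * hc F1 (n + 1) ((h : ℂ) * I) := ⟨_, rfl⟩
  obtain ⟨D, hD⟩ : ∃ D : ℝ → ℂ, D = fun h : ℝ => ω * hc F1 (n + 2) ((h : ℂ) * I) := ⟨_, rfl⟩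
  have hΦd : ∀ h : ℝ, 0 ≤ h → a * h ≤ 4 → HasDerivAt Φ (a * I * D h) h := by
    intro h h0 h1
    have d1 := (half F1 n ((h : ℂ) * I) hQ.diff hQ.symm (by linarith [hnI h h0 h1])).2
    have d2 : HasDerivAt (fun h : ℝ => (h : ℂ) * I) I h := by
      have := (Complex.ofRealCLM.hasDerivAt (x := h)).mul_const I
      simpa using this
    have d3 : HasDerivAt (fun h : ℝ => hc F1 (n + 1) ((h : ℂ) * I))
        ((n + 1) * hc F1 (n + 2) (h * I) * I) h :=
      HasDerivAt.comp (h₂ := fun z => hc F1 (n + 1) z) (h := fun h : ℝ => (h : ℂ) * I) h d1 d2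
    rw [hΦ, hD]
    refine (d3.const_mul ω).congr_deriv ?_
    rw [haa]
    push_cast
    ring
  have hDn : ∀ h : ℝ, 0 ≤ h → a * h ≤ 4 → ‖D h - Φ h‖ ≤ e / 64 * ‖Φ h‖ := by
    intro h h0 h1
    obtain ⟨k1, k2⟩ := HH _ (hnI h h0 h1)
    have e1 : D h - Φ h = ω * ((hc F1 (n + 2) (h * I) / hc F1 (n + 1) (h * I) - 1) *
        hc F1 (n + 1) (h * I)) := by
      rw [hD, hΦ]
      simp only
      rw [sub_mul, div_mul_cancel₀ _ k1, one_mul]
      ring
    rw [e1, hΦ]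
    simp only [norm_mul, hω, one_mul]
    gcongr
  have h40 : a * 0 ≤ 4 := by rw [mul_zero]; norm_num
  have hΦ0 : Φ 0 ≠ 0 := by
    rw [hΦ]
    simp only
    refine mul_ne_zero ?_ (HH _ (hnI 0 le_rfl h40)).1
    rw [← norm_pos_iff, hω]
    norm_num
  have hre0 : (Φ 0).re = 0 := by
    have h1 := (hax 0 (by simp)).1 (by rw [hshift, add_zero]; exact hz)
    rw [hΦ]
    exact h1
  obtain ⟨h, hh0, hh1, hh2, hh3⟩ := rot_zero ha he0 he1 hΦd hDn hΦ0 hre0
  have hpi2 := Real.pi_lt_d2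
  norm_num at hpi2
  have hah : a * h ≤ 4 := by
    have := (abs_le.1 hh1).2
    linarith
  have hh4 := hsm h hh0.le hah
  have hnh : n * h ≤ 4 := by
    rw [haa] at hah
    nlinarith
  have hhε : h ≤ ε / 2 := by
    by_contra hc
    push Not at hc
    have h3 : (n : ℝ) * (ε / 2) < n * h := mul_lt_mul_of_pos_left hc (by linarith)
    linarith
  refine ⟨h, hh0, hnh, ?_, ?_, ?_⟩
  · have e1 : n * h - Real.pi = (a * h - Real.pi) - h := by rw [haa]; ring
    rw [e1]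
    refine (abs_sub _ _).trans ?_
    rw [abs_of_pos hh0]
    linarith
  · rw [← hshift, hax h (by rw [abs_of_pos hh0]; linarith)]
    rw [hΦ] at hh2
    exact hh2
  · intro h' h0' hlt hcon
    rw [← hshift, hax h' (by rw [abs_of_pos h0']; linarith)] at hcon
    apply hh3 h' h0' hlt
    rw [hΦ]
    exact hcon

end Pool.Agent.P8H15.DS
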