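import Pool.Agent.Y671.LD.Fin

/-!
# Project DS: the spacing of the zeros of the derivatives of the Ramanujan Xi function

Statements of the packages. `F` is a completed L-function in the normalisation of `Pool.Agent.Y671.LD.Spec` (critical
line = imaginary axis); `ra T a = a / (log T / 2)`.

* GAPD: `theorem gapd : S_GAPD` (helper15). At a good point the right half `φ(h)` of the integral of Cauchy of the
  `n`-th derivative rotates with the constant speed `n`, and the derivative is its real (imaginary) part.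
* MID: `theorem mid2 {B K : ℝ} (hD : DD B K F) (h4 : SCount) (h5 : Unt F) (hst : Strip F B) (h6 : Cir F) (h7 : PtA F)
  (sb1a : SB1a) (sb1b : SB1b) (hgap : S_GAPD) : S_MID F`. Variant of `mid'` of `Pool.Agent.Y671.LD.Mid`.
* HI: `theorem hi_of {B K : ℝ} (hD : DD B K F) (h5 : Unt F) (h : S_MID F) : S_HI F (1 / 2)` and
  `theorem hi_scale {κ : ℝ} (hκ : 1 / 2 ≤ κ) (hX : Differentiable ℂ X)
  (h : S_HI (fun z => X (z / ((2 * κ : ℝ) : ℂ))) (1 / 2)) : S_HI X κ`.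
-/

set_option autoImplicit false

namespace Pool.Agent.P8H15.DS

open Complex Filter Topology MeasureTheory Set Polynomial
open Pool.Agent.H24R2.DZ (ra NN SCount SB1a SB1b)
open Pool.Agent.Y671.LD

/-- GAPD: the next zero of the `n`-th derivative on the line, local form. -/
def S_GAPD : Prop := ∀ ε : ℝ, 0 < ε → ∃ η : ℝ, ∃ n0 : ℕ, 0 < η ∧ 1 ≤ n0 ∧ ∀ (n : ℕ) (F : ℂ → ℂ), n0 ≤ n →
  NN n η F → ∀ y : ℝ, |y| ≤ 1 / 100 → iteratedDeriv n F (y * I) = 0 →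
  ∃ h : ℝ, 0 < h ∧ n * h ≤ 4 ∧ |n * h - Real.pi| ≤ ε ∧ iteratedDeriv n F ((y + h : ℝ) * I) = 0 ∧
    ∀ h' : ℝ, 0 < h' → h' < h → iteratedDeriv n F ((y + h' : ℝ) * I) ≠ 0

/-- The zero `s` of the `n`-th derivative is on the line, simple, and followed by a simple zero `s + i g` on the line
with `g L = π + O(ε)`, without any other zeros of the `n`-th derivative (on or off the line) in between. -/
def Fol (F : ℂ → ℂ) (n : ℕ) (L ε : ℝ) (s : ℂ) : Prop :=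
  s.re = 0 ∧ iteratedDeriv (n + 1) F s ≠ 0 ∧
  ∃ g : ℝ, 0 < g ∧ |g * L - Real.pi| ≤ ε ∧ iteratedDeriv n F (s + g * I) = 0 ∧
    iteratedDeriv (n + 1) F (s + g * I) ≠ 0 ∧
    ∀ z : ℂ, iteratedDeriv n F z = 0 → s.im ≤ z.im → z.im ≤ s.im + g → z = s ∨ z = s + g * I

/-- MID: dyadic windows, middle range of `n`. -/
def S_MID (F : ℂ → ℂ) : Prop := ∀ ε : ℝ, 0 < ε → ∃ c C T0 : ℝ, ∃ n0 : ℕ, 0 < c ∧ 0 < C ∧ 2 ≤ T0 ∧
  ∀ (T : ℝ) (n : ℕ), T0 ≤ T → n0 ≤ n → (n : ℝ) ≤ Real.log T / 400 → ∀ S : Finset ℂ,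
  (∀ s ∈ S, iteratedDeriv n F s = 0 ∧ T < s.im ∧ s.im ≤ 2 * T ∧ ¬ Fol F n (Real.log T / 2) ε s) →
  ∑ s ∈ S, (analyticOrderNatAt (iteratedDeriv n F) s : ℝ) ≤ C * T * Real.exp (-(c * n)) * Real.log T

/-- HI: all heights above `exp (K (n + 1))`. -/
def S_HI (F : ℂ → ℂ) (κ : ℝ) : Prop := ∀ ε : ℝ, 0 < ε → ∃ c C K : ℝ, 0 < c ∧ 0 < C ∧ 1 ≤ K ∧
  ∀ (n : ℕ) (T : ℝ), 2 ≤ T → ∀ S : Finset ℂ,
  (∀ s ∈ S, iteratedDeriv n F s = 0 ∧ Real.exp (K * (n + 1)) ≤ s.im ∧ s.im ≤ T ∧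
    ¬ Fol F n (κ * Real.log s.im) ε s) →
  ∑ s ∈ S, (analyticOrderNatAt (iteratedDeriv n F) s : ℝ) ≤ C * T * Real.log T * Real.exp (-(c * n))

end Pool.Agent.P8H15.DS
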