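import Pool.Agent.P8H15.DS.Stm

/-!
# Project DS, second part: all heights above `exp (δ (n + 1))`, `δ > 0` arbitrary

* TOP (helper15): `S_MID F → ... → ∀ K0, S_MIDK F K0`, range `log T / 400 ≤ n ≤ K0 log T`.
* HI2 (helper75, in place of HI): `theorem hid_of {B K δ : ℝ} (hδ : 0 < δ) (hD : DD B K F) (hst : Strip F B) (h5 : Unt F)
  (h : S_MIDK F (2 / δ)) : S_HID F (1 / 2) δ` and `theorem hid_scale {κ δ : ℝ} (hκ : 1 / 2 ≤ κ) (hδ : 0 < δ)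
  (hX : Differentiable ℂ X) (h : S_HID (fun z => X (z / ((2 * κ : ℝ) : ℂ))) (1 / 2) δ) : S_HID X κ δ`.
-/

set_option autoImplicit false

namespace Pool.Agent.P8H15.DS

open Complex Filter Topology MeasureTheory Set Polynomial
open Pool.Agent.H24R2.DZ (ra NN SCount SB1a SB1b)
open Pool.Agent.Y671.LD

/-- Dyadic windows, `n ≤ K0 log T`. -/
def S_MIDK (F : ℂ → ℂ) (K0 : ℝ) : Prop := ∀ ε : ℝ, 0 < ε → ∃ c C T0 : ℝ, ∃ n0 : ℕ, 0 < c ∧ 0 < C ∧ 2 ≤ T0 ∧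
  ∀ (T : ℝ) (n : ℕ), T0 ≤ T → n0 ≤ n → (n : ℝ) ≤ K0 * Real.log T → ∀ S : Finset ℂ,
  (∀ s ∈ S, iteratedDeriv n F s = 0 ∧ T < s.im ∧ s.im ≤ 2 * T ∧ ¬ Fol F n (Real.log T / 2) ε s) →
  ∑ s ∈ S, (analyticOrderNatAt (iteratedDeriv n F) s : ℝ) ≤ C * T * Real.exp (-(c * n)) * Real.log T

/-- All heights above `exp (δ (n + 1))`. -/
def S_HID (F : ℂ → ℂ) (κ δ : ℝ) : Prop := ∀ ε : ℝ, 0 < ε → ∃ c C : ℝ, 0 < c ∧ 0 < C ∧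
  ∀ (n : ℕ) (T : ℝ), 2 ≤ T → ∀ S : Finset ℂ,
  (∀ s ∈ S, iteratedDeriv n F s = 0 ∧ Real.exp (δ * (n + 1)) ≤ s.im ∧ s.im ≤ T ∧
    ¬ Fol F n (κ * Real.log s.im) ε s) →
  ∑ s ∈ S, (analyticOrderNatAt (iteratedDeriv n F) s : ℝ) ≤ C * T * Real.log T * Real.exp (-(c * n))

end Pool.Agent.P8H15.DS
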